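import Mathlib

/-!
Sets of logarithmic density zero.
-/

set_option autoImplicit false

namespace Pool.Agent.H4.El

open Finset Filter Topology

open Classical in
/-- the sum of `1/n` over `n ≤ X`, `n ∈ A` -/
noncomputable def lsum (A : Set ℕ) (X : ℕ) : ℝ :=
  ∑ n ∈ (Icc 1 X).filter (fun n => n ∈ A), (1 : ℝ) / n

/-- `A` has logarithmic density zero: the sum is at most `ε log X + C` for every `ε` -/
def LZ (A : Set ℕ) : Prop :=
  ∀ ε : ℝ, 0 < ε → ∃ C : ℝ, ∀ X : ℕ, 1 ≤ X → lsum A X ≤ ε * Real.log X + C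

theorem lsum_nonneg (A : Set ℕ) (X : ℕ) : 0 ≤ lsum A X :=
  sum_nonneg fun _ _ => by positivity

theorem lsum_mono {A B : Set ℕ} (h : A ⊆ B) (X : ℕ) : lsum A X ≤ lsum B X := by
  classical
  unfold lsum
  apply sum_le_sum_of_subset_of_nonneg
  · intro n hn
    rw [mem_filter] at hn ⊢
    exact ⟨hn.1, h hn.2⟩
  · intro _ _ _; positivity

theorem lsum_union (A B : Set ℕ) (X : ℕ) : lsum (A ∪ B) X ≤ lsum A X + lsum B X := by
  classical
  unfold lsum
  rw [sum_filter, sum_filter, sum_filter, ← sum_add_distrib]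
  apply sum_le_sum
  intro n _
  have : (0 : ℝ) ≤ 1 / n := by positivity
  by_cases hA : n ∈ A <;> by_cases hB : n ∈ B <;> simp [hA, hB]

theorem LZ.mono {A B : Set ℕ} (h : A ⊆ B) (hB : LZ B) : LZ A := by
  intro ε hε
  obtain ⟨C, hC⟩ := hB ε hε
  exact ⟨C, fun X hX => (lsum_mono h X).trans (hC X hX)⟩

theorem LZ.union {A B : Set ℕ} (hA : LZ A) (hB : LZ B) : LZ (A ∪ B) := by
  intro ε hε
  obtain ⟨C, hC⟩ := hA (ε / 2) (by positivity)
  obtain ⟨C', hC'⟩ := hB (ε / 2) (by positivity)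
  refine ⟨C + C', fun X hX => (lsum_union A B X).trans ?_⟩
  have h1 := hC X hX
  have h2 := hC' X hX
  linarith

theorem LZ.lt (x₀ : ℕ) : LZ {x | x < x₀} := by
  classical
  intro ε hε
  refine ⟨∑ n ∈ range x₀, (1 : ℝ) / n, fun X hX => ?_⟩
  have h0 : ∀ A : Set ℕ, (∀ n ∈ A, n < x₀) → lsum A X ≤ ∑ n ∈ range x₀, (1 : ℝ) / n := by
    intro A hA
    unfold lsum
    apply sum_le_sum_of_subset_of_nonneg
    · intro n hn
      exact mem_range.mpr (hA n (mem_filter.1 hn).2)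
    · intro _ _ _; positivity
  have h1 := h0 {x | x < x₀} (fun n hn => hn)
  have h2 : 0 ≤ ε * Real.log X := by
    have : 0 ≤ Real.log (X : ℝ) := Real.log_nonneg (by exact_mod_cast hX)
    positivity
  linarith

theorem LZ.biUnion {ι : Type*} (s : Finset ι) (A : ι → Set ℕ) (h : ∀ i ∈ s, LZ (A i)) :
    LZ (⋃ i ∈ s, A i) := by
  classical
  induction s using Finset.induction_on with
  | empty =>
    simp only [notMem_empty, Set.iUnion_of_empty, Set.iUnion_empty]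
    exact (LZ.lt 0).mono (Set.empty_subset _)
  | insert a s ha ih =>
    rw [set_biUnion_insert]
    exact (h a (mem_insert_self _ _)).union (ih fun i hi => h i (mem_insert_of_mem hi))

/-- if the averages of `F` are small on logarithmic average then the scales `x` where some partial
sum up to `c x` is larger than `δ x` have logarithmic density zero -/
theorem LZ_max (F : ℕ → ℂ) (hF : ∀ n, ‖F n‖ ≤ 1)
    (h : ∀ ε : ℝ, 0 < ε → ∃ C : ℝ, ∀ X : ℕ, 1 ≤ X →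
      ∑ Z ∈ Icc 1 X, ‖∑ n ∈ Icc 1 Z, F n‖ / (Z : ℝ) ^ 2 ≤ ε * Real.log X + C)
    (δ : ℝ) (hδ : 0 < δ) (c : ℕ) (hc : 1 ≤ c) :
    LZ {x | ∃ Y, Y ≤ c * x ∧ δ * x < ‖∑ n ∈ Icc 1 Y, F n‖} := by
  classical
  set U : ℕ → ℂ := fun Z => ∑ n ∈ Icc 1 Z, F n with hU
  have hUd : ∀ Z Y : ℕ, Z ≤ Y → ‖U Y‖ ≤ ‖U Z‖ + (Y - Z) := by
    intro Z Y hZY
    have h1 : U Y = U Z + ∑ n ∈ Ioc Z Y, F n := by
      simp only [hU]
      rw [← sum_union]
      · apply sum_congr _ fun _ _ => rfl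
        ext n
        simp only [mem_union, mem_Icc, mem_Ioc]
        omega
      · rw [disjoint_left]
        intro n hn hn'
        rw [mem_Icc] at hn
        rw [mem_Ioc] at hn'
        omega
    rw [h1]
    refine (norm_add_le _ _).trans ?_
    have h2 : ‖∑ n ∈ Ioc Z Y, F n‖ ≤ (Y : ℝ) - Z := by
      refine (norm_sum_le _ _).trans ?_
      calc ∑ n ∈ Ioc Z Y, ‖F n‖ ≤ ∑ n ∈ Ioc Z Y, (1 : ℝ) := sum_le_sum fun n _ => hF n
        _ = (Y : ℝ) - Z := by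
          rw [sum_const, Nat.card_Ioc, nsmul_eq_mul, mul_one, Nat.cast_sub hZY]
    linarith
  have hcr : (1 : ℝ) ≤ c := by exact_mod_cast hc
  have hc0 : (0 : ℝ) < c := by linarith
  -- the key pointwise bound
  obtain ⟨x₁, hx₁⟩ := exists_nat_ge (4 / δ)
  have hpt : ∀ x : ℕ, x₁ ≤ x → 1 ≤ x → (∃ Y, Y ≤ c * x ∧ δ * x < ‖U Y‖) →
      1 ≤ (8 * (c : ℝ) ^ 2 / δ ^ 2) *
        ∑ Z ∈ (Icc 1 (c * x)).filter (fun Z : ℕ => δ * x / 2 ≤ Z), ‖U Z‖ / (Z : ℝ) ^ 2 := by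
    rintro x hx hx1 ⟨Y, hY, hYn⟩
    have hxr : (0 : ℝ) < x := by exact_mod_cast hx1
    have hδx : 4 ≤ δ * x := by
      have : 4 / δ ≤ x := hx₁.trans (by exact_mod_cast hx)
      rw [div_le_iff₀ hδ] at this
      linarith
    have hYU : δ * x < Y := by
      refine hYn.trans_le ?_
      have := hUd 0 Y (Nat.zero_le _)
      simpa [hU] using this
    set k : ℕ := ⌊δ * x / 2⌋₊ with hk
    have hk1 : (k : ℝ) ≤ δ * x / 2 := Nat.floor_le (by positivity)
    have hk2 : δ * x / 2 < k + 1 := Nat.lt_floor_add_one _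
    have hk3 : δ * x / 4 ≤ k := by linarith
    have hkY : k < Y := by
      have : (k : ℝ) < Y := by linarith
      exact_mod_cast this
    have hsub : Ioc (Y - k) Y ⊆ (Icc 1 (c * x)).filter (fun Z : ℕ => δ * x / 2 ≤ Z) := by
      intro Z hZ
      rw [mem_Ioc] at hZ
      rw [mem_filter, mem_Icc]
      refine ⟨⟨by omega, hZ.2.trans hY⟩, ?_⟩
      have : ((Y - k : ℕ) : ℝ) < Z := by exact_mod_cast hZ.1
      rw [Nat.cast_sub hkY.le] at this
      linarith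
    have hterm : ∀ Z ∈ Ioc (Y - k) Y, (δ * x / 2) / (c * x : ℝ) ^ 2 ≤ ‖U Z‖ / (Z : ℝ) ^ 2 := by
      intro Z hZ
      rw [mem_Ioc] at hZ
      have h1 := hUd Z Y hZ.2
      have h2 : ((Y - k : ℕ) : ℝ) < Z := by exact_mod_cast hZ.1
      rw [Nat.cast_sub hkY.le] at h2
      have h3 : δ * x / 2 ≤ ‖U Z‖ := by linarith
      have h4 : (0 : ℝ) < Z := by
        have : 0 < Z := by omega
        exact_mod_cast this
      have h5 : (Z : ℝ) ≤ c * x := by
        have : Z ≤ c * x := hZ.2.trans hY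
        exact_mod_cast this
      gcongr
    have hsum : (k : ℝ) * ((δ * x / 2) / (c * x : ℝ) ^ 2) ≤
        ∑ Z ∈ (Icc 1 (c * x)).filter (fun Z : ℕ => δ * x / 2 ≤ Z), ‖U Z‖ / (Z : ℝ) ^ 2 := by
      calc (k : ℝ) * ((δ * x / 2) / (c * x : ℝ) ^ 2)
          = ∑ Z ∈ Ioc (Y - k) Y, (δ * x / 2) / (c * x : ℝ) ^ 2 := by
            rw [sum_const, Nat.card_Ioc, nsmul_eq_mul, Nat.sub_sub_self hkY.le]
        _ ≤ ∑ Z ∈ Ioc (Y - k) Y, ‖U Z‖ / (Z : ℝ) ^ 2 := sum_le_sum hterm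
        _ ≤ _ := sum_le_sum_of_subset_of_nonneg hsub fun _ _ _ => by positivity
    have h6 : 1 ≤ (8 * (c : ℝ) ^ 2 / δ ^ 2) * ((k : ℝ) * ((δ * x / 2) / (c * x : ℝ) ^ 2)) := by
      have h7 : (8 * (c : ℝ) ^ 2 / δ ^ 2) * ((δ * x / 4) * ((δ * x / 2) / (c * x : ℝ) ^ 2)) = 1 := by
        field_simp
        norm_num
      rw [← h7]
      gcongr
    refine h6.trans ?_
    gcongr
  intro ε hε
  set K : ℝ := (8 * (c : ℝ) ^ 2 / δ ^ 2) * (2 * c / δ) with hK
  have hK0 : 0 < K := by positivity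
  obtain ⟨C, hC⟩ := h (ε / K) (by positivity)
  obtain ⟨C', hC'⟩ := LZ.lt (max x₁ 1) (ε / 2) (by positivity)
  refine ⟨(∑ n ∈ range (max x₁ 1), (1 : ℝ) / n) + K * ((ε / K) * Real.log c + |C|), fun X hX => ?_⟩
  obtain ⟨B, hB⟩ : ∃ B : Set ℕ, B = {x | ∃ Y, Y ≤ c * x ∧ δ * x < ‖∑ n ∈ Icc 1 Y, F n‖} :=
    ⟨_, rfl⟩
  rw [← hB]
  have e1 : lsum B X ≤ ∑ n ∈ range (max x₁ 1), (1 : ℝ) / n +
      ∑ x ∈ (Icc 1 X).filter (fun x => x₁ ≤ x ∧ x ∈ B), (1 : ℝ) / x := by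
    unfold lsum
    have : (Icc 1 X).filter (fun n => n ∈ B) ⊆ range (max x₁ 1) ∪
        (Icc 1 X).filter (fun x => x₁ ≤ x ∧ x ∈ B) := by
      intro n hn
      rw [mem_filter] at hn
      rw [mem_union, mem_range, mem_filter]
      by_cases h : x₁ ≤ n
      · exact Or.inr ⟨hn.1, h, hn.2⟩
      · left
        have := le_max_left x₁ 1
        omega
    refine (sum_le_sum_of_subset_of_nonneg (f := fun n : ℕ => (1 : ℝ) / n) this
      fun _ _ _ => by positivity).trans ?_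
    have h2 := sum_union_inter (s₁ := range (max x₁ 1))
      (s₂ := (Icc 1 X).filter (fun x => x₁ ≤ x ∧ x ∈ B)) (f := fun n : ℕ => (1 : ℝ) / n)
    have h3 : 0 ≤ ∑ n ∈ range (max x₁ 1) ∩ (Icc 1 X).filter (fun x => x₁ ≤ x ∧ x ∈ B),
        (1 : ℝ) / n := sum_nonneg fun _ _ => by positivity
    linarith
  have e2 : ∑ x ∈ (Icc 1 X).filter (fun x => x₁ ≤ x ∧ x ∈ B), (1 : ℝ) / x ≤
      ∑ x ∈ Icc 1 X, (1 : ℝ) / x * ((8 * (c : ℝ) ^ 2 / δ ^ 2) *
        ∑ Z ∈ (Icc 1 (c * x)).filter (fun Z : ℕ => δ * x / 2 ≤ Z), ‖U Z‖ / (Z : ℝ) ^ 2) := by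
    have h0 : ∀ x ∈ Icc 1 X, 0 ≤ (1 : ℝ) / x * ((8 * (c : ℝ) ^ 2 / δ ^ 2) *
        ∑ Z ∈ (Icc 1 (c * x)).filter (fun Z : ℕ => δ * x / 2 ≤ Z), ‖U Z‖ / (Z : ℝ) ^ 2) := by
      intro x _
      have : 0 ≤ ∑ Z ∈ (Icc 1 (c * x)).filter (fun Z : ℕ => δ * x / 2 ≤ Z), ‖U Z‖ / (Z : ℝ) ^ 2 :=
        sum_nonneg fun _ _ => by positivity
      positivity
    rw [sum_filter]
    refine sum_le_sum fun x hx => ?_
    by_cases hxB : x₁ ≤ x ∧ x ∈ B
    swap
    · rw [if_neg hxB]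
      exact h0 x hx
    rw [if_pos hxB]
    rw [mem_Icc] at hx
    have hxB2 := hxB.2
    rw [hB] at hxB2
    have h1 := hpt x hxB.1 hx.1 hxB2
    have h2 : (0 : ℝ) ≤ 1 / x := by positivity
    have h3 := mul_le_mul_of_nonneg_left h1 h2
    rwa [mul_one] at h3
  have e3 : ∑ x ∈ Icc 1 X, (1 : ℝ) / x * ((8 * (c : ℝ) ^ 2 / δ ^ 2) *
        ∑ Z ∈ (Icc 1 (c * x)).filter (fun Z : ℕ => δ * x / 2 ≤ Z), ‖U Z‖ / (Z : ℝ) ^ 2)
      ≤ K * ∑ Z ∈ Icc 1 (c * X), ‖U Z‖ / (Z : ℝ) ^ 2 := by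
    have h1 : ∀ x ∈ Icc 1 X, (1 : ℝ) / x * ((8 * (c : ℝ) ^ 2 / δ ^ 2) *
        ∑ Z ∈ (Icc 1 (c * x)).filter (fun Z : ℕ => δ * x / 2 ≤ Z), ‖U Z‖ / (Z : ℝ) ^ 2)
        = (8 * (c : ℝ) ^ 2 / δ ^ 2) * ∑ Z ∈ Icc 1 (c * X),
          (if Z ≤ c * x ∧ δ * x / 2 ≤ Z then (1 : ℝ) / x else 0) * (‖U Z‖ / (Z : ℝ) ^ 2) := by
      intro x hx
      rw [mem_Icc] at hx
      rw [mul_left_comm, mul_sum]
      congr 1
      have h2 : (Icc 1 (c * x)).filter (fun Z : ℕ => δ * x / 2 ≤ Z)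
          = (Icc 1 (c * X)).filter (fun Z : ℕ => Z ≤ c * x ∧ δ * x / 2 ≤ Z) := by
        ext Z
        simp only [mem_filter, mem_Icc]
        have : c * x ≤ c * X := Nat.mul_le_mul_left _ hx.2
        constructor
        · rintro ⟨⟨h3, h4⟩, h5⟩
          exact ⟨⟨h3, h4.trans this⟩, h4, h5⟩
        · rintro ⟨⟨h3, _⟩, h4, h5⟩
          exact ⟨⟨h3, h4⟩, h5⟩
      rw [h2, sum_filter]
      apply sum_congr rfl
      intro Z _
      split_ifs <;> simp
    rw [sum_congr rfl h1, ← mul_sum, sum_comm, hK, mul_assoc (8 * (c : ℝ) ^ 2 / δ ^ 2)]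
    apply mul_le_mul_of_nonneg_left _ (by positivity : (0 : ℝ) ≤ 8 * (c : ℝ) ^ 2 / δ ^ 2)
    rw [mul_sum]
    refine sum_le_sum fun Z hZ => ?_
    rw [mem_Icc] at hZ
    rw [← sum_mul]
    refine mul_le_mul_of_nonneg_right ?_ (by positivity)
    have hZ0 : (0 : ℝ) < Z := by exact_mod_cast hZ.1
    -- number of x with δ x / 2 ≤ Z is at most 2 Z / δ, each 1/x ≤ c / Z
    have h3 : ∀ x ∈ Icc 1 X, (if Z ≤ c * x ∧ δ * x / 2 ≤ Z then (1 : ℝ) / x else 0)
        ≤ (if x ∈ Icc 1 ⌊2 * Z / δ⌋₊ then (c : ℝ) / Z else 0) := by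
      intro x hx
      rw [mem_Icc] at hx
      have hx0 : (0 : ℝ) < x := by exact_mod_cast hx.1
      by_cases h4 : Z ≤ c * x ∧ δ * x / 2 ≤ Z
      · have h5 : x ∈ Icc 1 ⌊2 * Z / δ⌋₊ := by
          rw [mem_Icc]
          refine ⟨hx.1, Nat.le_floor ?_⟩
          rw [le_div_iff₀ hδ]
          linarith [h4.2]
        rw [if_pos h4, if_pos h5, div_le_div_iff₀ hx0 hZ0]
        have : (Z : ℝ) ≤ c * x := by exact_mod_cast h4.1
        linarith
      · rw [if_neg h4]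
        split_ifs
        · positivity
        · exact le_refl _
    refine (sum_le_sum h3).trans ?_
    rw [← sum_filter]
    have h6 : ((Icc 1 X).filter (fun x => x ∈ Icc 1 ⌊2 * Z / δ⌋₊)).card ≤ ⌊2 * Z / δ⌋₊ := by
      refine (card_le_card (t := Icc 1 ⌊2 * Z / δ⌋₊) ?_).trans (by simp)
      intro x hx
      exact (mem_filter.mp hx).2
    rw [sum_const, nsmul_eq_mul]
    have h7 : ((((Icc 1 X).filter (fun x => x ∈ Icc 1 ⌊2 * Z / δ⌋₊)).card : ℕ) : ℝ)
        ≤ 2 * Z / δ := by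
      refine le_trans ?_ (Nat.floor_le (by positivity))
      exact_mod_cast h6
    calc _ ≤ (2 * Z / δ) * ((c : ℝ) / Z) := by gcongr
      _ = 2 * c / δ := by field_simp
  have hX0 : (0 : ℝ) < X := by exact_mod_cast hX
  have e4 := hC (c * X) (Nat.mul_pos hc hX)
  have e5 : Real.log ((c * X : ℕ) : ℝ) = Real.log c + Real.log X := by
    push_cast
    exact Real.log_mul hc0.ne' hX0.ne'
  rw [e5] at e4
  have e6 : K * ∑ Z ∈ Icc 1 (c * X), ‖U Z‖ / (Z : ℝ) ^ 2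
      ≤ ε * Real.log X + K * ((ε / K) * Real.log c + |C|) := by
    have h1 := mul_le_mul_of_nonneg_left e4 hK0.le
    have h2 : K * (ε / K * (Real.log c + Real.log X) + C)
        = ε * Real.log X + K * ((ε / K) * Real.log c + C) := by
      field_simp
      ring
    rw [h2] at h1
    have h3 : K * C ≤ K * |C| := mul_le_mul_of_nonneg_left (le_abs_self C) hK0.le
    have h4 : K * ∑ Z ∈ Icc 1 (c * X), ‖U Z‖ / (Z : ℝ) ^ 2
        ≤ ε * Real.log X + K * ((ε / K) * Real.log c + C) := h1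
    nlinarith
  linarith

/-- countably many sets of logarithmic density zero: a set with complement of logarithmic density
zero which meets each of them in a bounded set -/
theorem LZ_diag (A : ℕ → Set ℕ) (hA : ∀ i, LZ (A i)) :
    ∃ B : Set ℕ, Tendsto (fun X : ℕ => lsum B X / Real.log X) atTop (𝓝 0) ∧
      ∀ i, ∃ x₀ : ℕ, ∀ x, x₀ ≤ x → x ∉ B → x ∉ A i := by
  classical
  set D : ℕ → Set ℕ := fun i => ⋃ j ∈ range (i + 1), A j with hD
  have hDLZ : ∀ i, LZ (D i) := fun i => LZ.biUnion _ _ fun j _ => hA j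
  -- thresholds
  have hthr : ∀ i : ℕ, ∃ t : ℕ, ∀ X : ℕ, t ≤ X → lsum (D i) X ≤ (1 / ((i : ℝ) + 1)) * Real.log X := by
    intro i
    obtain ⟨C, hC⟩ := hDLZ i (1 / ((i : ℝ) + 1) / 2) (by positivity)
    have h1 : Tendsto (fun X : ℕ => (1 / ((i : ℝ) + 1) / 2) * Real.log X) atTop atTop :=
      (Real.tendsto_log_atTop.comp tendsto_natCast_atTop_atTop).const_mul_atTop (by positivity)
    obtain ⟨t, ht⟩ := (h1.eventually_ge_atTop C).exists_forall_of_atTop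
    refine ⟨max t 1, fun X hX => ?_⟩
    have h2 := hC X (le_of_max_le_right hX)
    have h3 := ht X (le_of_max_le_left hX)
    linarith
  choose t ht using hthr
  -- increasing thresholds
  set T : ℕ → ℕ := fun i => (∑ j ∈ range (i + 1), t j) + i with hT
  have hTt : ∀ i, t i ≤ T i := by
    intro i
    have h1 : t i ≤ ∑ j ∈ range (i + 1), t j :=
      single_le_sum (f := t) (fun j _ => Nat.zero_le _) (mem_range.mpr (Nat.lt_succ_self i))
    have h2 : T i = (∑ j ∈ range (i + 1), t j) + i := rfl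
    omega
  have hTm : StrictMono T := by
    apply strictMono_nat_of_lt_succ
    intro i
    have h1 : T i = (∑ j ∈ range (i + 1), t j) + i := rfl
    have h2 : T (i + 1) = (∑ j ∈ range (i + 1 + 1), t j) + (i + 1) := rfl
    rw [sum_range_succ (fun j => t j) (i + 1)] at h2
    omega
  refine ⟨{x | ∃ i, T i ≤ x ∧ x ∈ A i}, ?_, fun i => ⟨T i, fun x hx hB hxA => hB ⟨i, hx, hxA⟩⟩⟩
  set B : Set ℕ := {x | ∃ i, T i ≤ x ∧ x ∈ A i} with hB
  have hbound : ∀ i X : ℕ, T i ≤ X → lsum B X ≤ (1 / ((i : ℝ) + 1)) * Real.log X := by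
    intro i X hX
    -- the largest index l with T l ≤ X
    have hex : ∃ l, i ≤ l ∧ T l ≤ X ∧ X < T (l + 1) := by
      have hfin : ∃ m, X < T m := ⟨X + 1, by
        have := hTm.le_apply (x := X + 1)
        omega⟩
      let m := Nat.find hfin
      have hm : X < T m := Nat.find_spec hfin
      have hm0 : m ≠ 0 := by
        intro h0
        rw [h0] at hm
        have := hTm.monotone (Nat.zero_le i)
        omega
      obtain ⟨l, hl⟩ := Nat.exists_eq_succ_of_ne_zero hm0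
      refine ⟨l, ?_, ?_, by rw [← Nat.succ_eq_add_one, ← hl]; exact hm⟩
      · by_contra hcon
        push Not at hcon
        have h1 : m ≤ i := by omega
        have h2 := hTm.monotone h1
        omega
      · have := Nat.find_min hfin (m := l) (by change l < m; omega)
        omega
    obtain ⟨l, hil, hl1, hl2⟩ := hex
    have h1 : lsum B X ≤ lsum (D l) X := by
      unfold lsum
      apply sum_le_sum_of_subset_of_nonneg
      · intro n hn
        rw [mem_filter, mem_Icc] at hn ⊢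
        refine ⟨hn.1, ?_⟩
        obtain ⟨j, hj1, hj2⟩ := hn.2
        have hjl : j < l + 1 := by
          rw [← hTm.lt_iff_lt]
          omega
        simp only [hD, Set.mem_iUnion]
        exact ⟨j, mem_range.mpr hjl, hj2⟩
      · intro _ _ _; positivity
    refine h1.trans ((ht l X ((hTt l).trans hl1)).trans ?_)
    have h3 : 0 ≤ Real.log (X : ℝ) := by
      rcases Nat.eq_zero_or_pos X with h0 | h0
      · rw [h0]; simp
      · exact Real.log_nonneg (by exact_mod_cast h0)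
    have h4 : (i : ℝ) ≤ l := by exact_mod_cast hil
    gcongr
  rw [Metric.tendsto_atTop]
  intro ε hε
  obtain ⟨i, hi⟩ := exists_nat_gt (1 / ε)
  refine ⟨max (T i) 3, fun X hX => ?_⟩
  have h1 := hbound i X (le_of_max_le_left hX)
  have hX3 : 3 ≤ X := le_of_max_le_right hX
  have hlog : 0 < Real.log (X : ℝ) := Real.log_pos (by
    have : (3 : ℝ) ≤ X := by exact_mod_cast hX3
    linarith)
  rw [Real.dist_eq, sub_zero, abs_of_nonneg (div_nonneg (lsum_nonneg _ _) hlog.le),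
    div_lt_iff₀ hlog]
  refine h1.trans_lt ?_
  have h2 : 1 / ((i : ℝ) + 1) < ε := by
    rw [div_lt_iff₀ (by positivity)]
    rw [div_lt_iff₀ hε] at hi
    nlinarith
  exact mul_lt_mul_of_pos_right h2 hlog

end Pool.Agent.H4.El
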