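import Mathlib
import Pool.Agent.H2.EllKatai

/-!
Katai's inequality at a single scale, over a set of primes with divergent reciprocals, with an error
term `4 x / q^2` allowed in the bilinear sums.
-/

set_option autoImplicit false

namespace Pool.Agent.H4.El

open Finset Pool.H2.Ell

/-- the primes in `W` have a divergent sum of reciprocals -/
def Dv (W : ℕ → Prop) : Prop :=
  ∀ (P₀ : ℕ) (H₀ : ℝ), ∃ S : Finset ℕ, (∀ p ∈ S, p.Prime ∧ P₀ < p ∧ W p) ∧
    H₀ ≤ ∑ p ∈ S, (1 : ℝ) / p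

theorem dv_or (W : ℕ → Prop) : Dv W ∨ Dv (fun p => ¬ W p) := by
  classical
  by_cases h : Dv W
  · exact Or.inl h
  · right
    unfold Dv at h
    push Not at h
    obtain ⟨P₁, H₁, h⟩ := h
    intro P₀ H₀
    obtain ⟨S, hS, hS2⟩ := exists_primes (max P₀ P₁) (H₀ + H₁)
    refine ⟨S.filter (fun p => ¬ W p), ?_, ?_⟩
    · intro p hp
      rw [mem_filter] at hp
      exact ⟨(hS p hp.1).1, lt_of_le_of_lt (le_max_left _ _) (hS p hp.1).2, hp.2⟩
    · have h1 := h (S.filter W) (fun p hp => by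
        rw [mem_filter] at hp
        exact ⟨(hS p hp.1).1, lt_of_le_of_lt (le_max_right _ _) (hS p hp.1).2, hp.2⟩)
      have h2 := sum_filter_add_sum_filter_not S W (fun p => (1 : ℝ) / p)
      linarith

/-- expansion of the bilinear sum -/
theorem bilinear_var (F g : ℕ → ℂ) (hF : ∀ n, ‖F n‖ ≤ 1) (hg : MB g) (S : Finset ℕ)
    (hS : ∀ p ∈ S, p.Prime) (x : ℕ) (E : ℕ → ℕ → ℝ)
    (hE : ∀ p ∈ S, ∀ q ∈ S, p ≠ q →
      ‖∑ m ∈ range (min (xp x p) (xp x q)), F (p * m) * (starRingEnd ℂ) (F (q * m))‖ ≤ E p q) :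
    ∑ m ∈ range x, ‖∑ p ∈ S, g p * (if p * m < x then F (p * m) else 0)‖ ^ 2
      ≤ x * ∑ p ∈ S, (1 : ℝ) / p + S.card + ∑ p ∈ S, ∑ q ∈ S.erase p, E p q := by
  have key : ∀ p ∈ S, ∀ q ∈ S,
      ‖∑ m ∈ range x, (g p * (if p * m < x then F (p * m) else 0))
        * (starRingEnd ℂ) (g q * (if q * m < x then F (q * m) else 0))‖
      ≤ if p = q then ((x : ℝ) / p + 1) else E p q := by
    intro p hp q hq
    have hp0 := (hS p hp).pos
    have hq0 := (hS q hq).pos
    by_cases hpq : p = q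
    · subst hpq
      rw [if_pos rfl]
      have h1 : ∑ m ∈ range x, (if p * m < x then (1 : ℝ) else 0) = xp x p := by
        rw [← sum_filter]
        have h2 : (range x).filter (fun m => p * m < x) = range (xp x p) := by
          ext m
          simp only [mem_range, mem_filter]
          rw [lt_xp_iff x p m hp0]
          constructor
          · exact fun h => h.2
          · intro h
            exact ⟨lt_of_le_of_lt (Nat.le_mul_of_pos_left m hp0) h, h⟩
        rw [h2]; simp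
      have h3 : ((xp x p : ℕ) : ℝ) ≤ x / p + 1 := by
        linarith [(abs_le.1 (abs_xp x p hp0)).2]
      refine le_trans ?_ h3
      rw [← h1]
      refine (norm_sum_le _ _).trans (sum_le_sum fun m _ => ?_)
      by_cases hm : p * m < x
      · rw [if_pos hm, norm_mul, RCLike.norm_conj, norm_mul, if_pos hm]
        have := mul_le_one₀ (hg.bdd p) (norm_nonneg _) (hF (p * m))
        exact mul_le_one₀ this (by positivity) this
      · rw [if_neg hm, if_neg hm]; simp
    · rw [if_neg hpq]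
      set N := min (xp x p) (xp x q) with hN
      have h2 : ∑ m ∈ range x, (g p * (if p * m < x then F (p * m) else 0))
          * (starRingEnd ℂ) (g q * (if q * m < x then F (q * m) else 0))
          = (g p * (starRingEnd ℂ) (g q)) *
            ∑ m ∈ range N, F (p * m) * (starRingEnd ℂ) (F (q * m)) := by
        have h3 : range N = (range x).filter (fun m => p * m < x ∧ q * m < x) := by
          ext m
          simp only [mem_range, mem_filter, hN, lt_min_iff]
          rw [lt_xp_iff x p m hp0, lt_xp_iff x q m hq0]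
          constructor
          · intro h
            exact ⟨lt_of_le_of_lt (Nat.le_mul_of_pos_left m hp0) h.1, h⟩
          · exact fun h => h.2
        rw [h3, sum_filter, mul_sum]
        apply sum_congr rfl
        intro m _
        by_cases h4 : p * m < x
        · by_cases h5 : q * m < x
          · rw [if_pos h4, if_pos h5, if_pos ⟨h4, h5⟩, map_mul]; ring
          · have h6 : ¬ (p * m < x ∧ q * m < x) := fun h => h5 h.2
            rw [if_neg h5, if_neg h6]; simp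
        · have h6 : ¬ (p * m < x ∧ q * m < x) := fun h => h4 h.1
          rw [if_neg h4, if_neg h6]; simp
      rw [h2, norm_mul, norm_mul, RCLike.norm_conj]
      have h7 := hE p hp q hq hpq
      calc _ ≤ 1 * E p q := by
            apply mul_le_mul (mul_le_one₀ (hg.bdd p) (norm_nonneg _) (hg.bdd q))
              h7 (norm_nonneg _) zero_le_one
        _ = E p q := one_mul _
  have e1 : ((∑ m ∈ range x, ‖∑ p ∈ S, g p * (if p * m < x then F (p * m) else 0)‖ ^ 2 : ℝ) : ℂ)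
      = ∑ p ∈ S, ∑ q ∈ S, ∑ m ∈ range x, (g p * (if p * m < x then F (p * m) else 0))
        * (starRingEnd ℂ) (g q * (if q * m < x then F (q * m) else 0)) := by
    push_cast
    have : ∀ m, ((‖∑ p ∈ S, g p * (if p * m < x then F (p * m) else 0)‖ : ℂ)) ^ 2
        = ∑ p ∈ S, ∑ q ∈ S, (g p * (if p * m < x then F (p * m) else 0))
        * (starRingEnd ℂ) (g q * (if q * m < x then F (q * m) else 0)) := by
      intro m
      rw [← Complex.mul_conj', map_sum, sum_mul_sum]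
    rw [sum_congr rfl (fun m _ => this m), sum_comm]
    apply sum_congr rfl
    intro p _
    rw [sum_comm]
  have e2 : ∑ m ∈ range x, ‖∑ p ∈ S, g p * (if p * m < x then F (p * m) else 0)‖ ^ 2
      ≤ ∑ p ∈ S, ∑ q ∈ S, (if p = q then ((x : ℝ) / p + 1) else E p q) := by
    have h0 : 0 ≤ ∑ m ∈ range x, ‖∑ p ∈ S, g p * (if p * m < x then F (p * m) else 0)‖ ^ 2 :=
      sum_nonneg fun _ _ => by positivity
    calc ∑ m ∈ range x, ‖∑ p ∈ S, g p * (if p * m < x then F (p * m) else 0)‖ ^ 2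
        = ‖((∑ m ∈ range x,
            ‖∑ p ∈ S, g p * (if p * m < x then F (p * m) else 0)‖ ^ 2 : ℝ) : ℂ)‖ := by
          rw [Complex.norm_real, Real.norm_eq_abs, abs_of_nonneg h0]
      _ ≤ _ := by
          rw [e1]
          refine (norm_sum_le _ _).trans (sum_le_sum fun p hp => ?_)
          exact (norm_sum_le _ _).trans (sum_le_sum fun q hq => key p hp q hq)
  refine e2.trans (le_of_eq ?_)
  have e3 : ∀ p ∈ S, ∑ q ∈ S, (if p = q then ((x : ℝ) / p + 1) else E p q)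
      = (x : ℝ) / p + 1 + ∑ q ∈ S.erase p, E p q := by
    intro p hp
    rw [← add_sum_erase _ _ hp, if_pos rfl]
    congr 1
    apply sum_congr rfl
    intro q hq
    rw [if_neg (fun h => (mem_erase.1 hq).1 h.symm)]
  rw [sum_congr rfl e3, sum_add_distrib, sum_add_distrib, mul_sum]
  congr 1
  congr 1
  · apply sum_congr rfl; intro p _; ring
  · simp

/-- the sum of `1/max(p,q)^2` over pairs -/
theorem sum_max_le (S : Finset ℕ) (hS : ∀ p ∈ S, p.Prime) :
    ∑ p ∈ S, ∑ q ∈ S.erase p, (1 : ℝ) / ((max p q : ℕ) : ℝ) ^ 2 ≤ 2 * ∑ p ∈ S, (1 : ℝ) / p := by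
  have h1 : ∀ p ∈ S, ∑ q ∈ S.erase p, (1 : ℝ) / ((max p q : ℕ) : ℝ) ^ 2
      = ∑ q ∈ S, (if q < p then (1 : ℝ) / (p : ℝ) ^ 2 else 0)
        + ∑ q ∈ S, (if p < q then (1 : ℝ) / (q : ℝ) ^ 2 else 0) := by
    intro p hp
    rw [← sum_add_distrib, ← add_sum_erase S _ hp]
    simp only [lt_irrefl, if_false, add_zero, zero_add]
    apply sum_congr rfl
    intro q hq
    have hne := (mem_erase.1 hq).1
    rcases lt_or_gt_of_ne hne with h | h
    · rw [if_pos h, if_neg (not_lt.mpr h.le), max_eq_left h.le, add_zero]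
    · rw [if_neg (not_lt.mpr h.le), if_pos h, max_eq_right h.le, zero_add]
  rw [sum_congr rfl h1, sum_add_distrib]
  have h2 : ∑ p ∈ S, ∑ q ∈ S, (if p < q then (1 : ℝ) / (q : ℝ) ^ 2 else 0)
      = ∑ p ∈ S, ∑ q ∈ S, (if q < p then (1 : ℝ) / (p : ℝ) ^ 2 else 0) := by
    rw [sum_comm]
  rw [h2, ← two_mul]
  refine mul_le_mul_of_nonneg_left (sum_le_sum fun p hp => ?_) (by norm_num)
  rw [← sum_filter, sum_const, nsmul_eq_mul]
  have h3 : ((S.filter (fun q => q < p)).card : ℝ) ≤ p := by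
    have : (S.filter (fun q => q < p)).card ≤ (range p).card := by
      apply card_le_card
      intro q hq
      rw [mem_filter] at hq
      exact mem_range.mpr hq.2
    rw [card_range] at this
    exact_mod_cast this
  have hp0 : (0 : ℝ) < p := by exact_mod_cast (hS p hp).pos
  calc ((S.filter (fun q => q < p)).card : ℝ) * (1 / (p : ℝ) ^ 2)
      ≤ (p : ℝ) * (1 / (p : ℝ) ^ 2) := by
        gcongr
    _ = 1 / (p : ℝ) := by field_simp

theorem katai_var {W : ℕ → Prop} (hW : Dv W) {ε : ℝ} (hε : 0 < ε) (P₀ : ℕ) :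
    ∃ (S : Finset ℕ) (δ : ℝ) (x₀ : ℕ),
    (∀ p ∈ S, p.Prime ∧ P₀ < p ∧ W p) ∧ 0 < δ ∧
    ∀ x ≥ x₀, ∀ F g : ℕ → ℂ, (∀ n, ‖F n‖ ≤ 1) → MB g →
    (∀ p ∈ S, ∀ q ∈ S, p < q →
      ‖∑ m ∈ range (xp x q), F (p * m) * (starRingEnd ℂ) (F (q * m))‖
        ≤ δ * x + 4 * x / q ^ 2 + 12) →
    ‖∑ n ∈ range x, g n * F n‖ ≤ ε * x := by
  classical
  obtain ⟨S, hSP, hSH⟩ := hW P₀ (max 1 (61 / ε ^ 2))
  have hS : ∀ p ∈ S, p.Prime := fun p hp => (hSP p hp).1
  set H : ℝ := ∑ p ∈ S, (1 : ℝ) / p with hH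
  have hH1 : 1 ≤ H := (le_max_left _ _).trans hSH
  have hH2 : 61 / ε ^ 2 ≤ H := (le_max_right _ _).trans hSH
  set s : ℝ := (S.card : ℝ) with hs
  have hs1 : 1 ≤ s := by
    have : S.Nonempty := by
      rw [nonempty_iff_ne_empty]
      intro h0
      rw [hH, h0] at hH1
      simp at hH1
      linarith
    rw [hs]
    exact_mod_cast this.card_pos
  set δ : ℝ := H / s ^ 2 with hδ
  have hδ0 : 0 < δ := by rw [hδ]; positivity
  obtain ⟨x₀, hx₀⟩ := exists_nat_ge ((4 * s ^ 2 + s + 12 * s ^ 2) + 32 * s ^ 2)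
  refine ⟨S, δ, max x₀ 1, hSP, hδ0, fun x hx F g hF hg hcond => ?_⟩
  have hx1 : 1 ≤ x := le_trans (le_max_right _ _) hx
  have hxr : (1 : ℝ) ≤ x := by exact_mod_cast hx1
  have hxx : (4 * s ^ 2 + s + 12 * s ^ 2) + 32 * s ^ 2 ≤ x := by
    refine hx₀.trans ?_
    exact_mod_cast le_trans (le_max_left _ _) hx
  have hmono : ∀ p q : ℕ, 0 < p → p < q → xp x q ≤ xp x p := by
    intro p q hp hpq
    by_contra hcon
    push Not at hcon
    have h1 := (lt_xp_iff x q (xp x p) (by omega)).1 hcon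
    have h2 : ¬ (p * xp x p < x) := by
      rw [← lt_xp_iff x p _ hp]
      exact lt_irrefl _
    have h3 : p * xp x p ≤ q * xp x p := Nat.mul_le_mul_right _ hpq.le
    omega
  have hbil : ∀ p ∈ S, ∀ q ∈ S, p ≠ q →
      ‖∑ m ∈ range (min (xp x p) (xp x q)), F (p * m) * (starRingEnd ℂ) (F (q * m))‖
        ≤ δ * x + 4 * x * (1 / ((max p q : ℕ) : ℝ) ^ 2) + 12 := by
    intro p hp q hq hne
    rcases lt_or_gt_of_ne hne with h | h
    · rw [min_eq_right (hmono p q (hS p hp).pos h), max_eq_right h.le]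
      refine (hcond p hp q hq h).trans (le_of_eq ?_)
      ring
    · rw [min_eq_left (hmono q p (hS q hq).pos h), max_eq_left h.le]
      have h1 : ‖∑ m ∈ range (xp x p), F (p * m) * (starRingEnd ℂ) (F (q * m))‖
          = ‖∑ m ∈ range (xp x p), F (q * m) * (starRingEnd ℂ) (F (p * m))‖ := by
        rw [← RCLike.norm_conj, map_sum]
        congr 1
        apply sum_congr rfl
        intro m _
        rw [map_mul, Complex.conj_conj, mul_comm]
      rw [h1]
      refine (hcond q hq p hp h).trans (le_of_eq ?_)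
      ring
  have hdec := katai_decomp F g hF hg S hS x
  set Z : ℝ := ‖∑ n ∈ range x, g n * F n‖ with hZ
  have hZ0 : 0 ≤ Z := norm_nonneg _
  set a : ℝ := ∑ n ∈ range x, |∑ p ∈ S, ((if p ∣ n then (1 : ℝ) else 0) - 1 / p)| with ha
  set b : ℝ := ∑ p ∈ S, 2 * (xp (xp x p) p : ℝ) with hb
  set c : ℝ := ∑ m ∈ range x, ‖∑ p ∈ S, g p * (if p * m < x then F (p * m) else 0)‖ with hc
  have ha2 : a ^ 2 ≤ x * (x * H + 4 * s ^ 2) := by
    refine (sq_sum_le x _).trans ?_
    have := turan_kubilius S hS x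
    simp only [sq_abs]
    gcongr
  have hb0 : 0 ≤ b := sum_nonneg fun p _ => by positivity
  have hb2 : b ≤ 2 * x + 4 * s := by
    have h1 : ∀ p ∈ S, 2 * (xp (xp x p) p : ℝ) ≤ 2 * x * (1 / p ^ 2) + 4 := by
      intro p hp
      have hp0 := (hS p hp).pos
      have hp1 : (1 : ℝ) ≤ p := by exact_mod_cast hp0
      have hpp : (0 : ℝ) < p := by linarith
      have e1 := (abs_le.1 (abs_xp (xp x p) p hp0)).2
      have e2 := (abs_le.1 (abs_xp x p hp0)).2
      have e3 : ((xp x p : ℕ) : ℝ) / p ≤ (x / p + 1) / p := by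
        gcongr; linarith
      have e4 : ((x : ℝ) / p + 1) / p = x * (1 / p ^ 2) + 1 / p := by field_simp
      have e5 : 1 / (p : ℝ) ≤ 1 := by rw [div_le_one hpp]; exact hp1
      linarith
    calc b ≤ ∑ p ∈ S, (2 * x * (1 / (p : ℝ) ^ 2) + 4) := sum_le_sum h1
      _ = 2 * x * ∑ p ∈ S, (1 : ℝ) / p ^ 2 + 4 * s := by
          rw [sum_add_distrib, mul_sum, sum_const, nsmul_eq_mul]
          ring
      _ ≤ 2 * x * 1 + 4 * s := by
          gcongr
          exact sum_inv_sq_primes S hS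
      _ = _ := by ring
  have hE : ∑ p ∈ S, ∑ q ∈ S.erase p, (δ * x + 4 * x * (1 / ((max p q : ℕ) : ℝ) ^ 2) + 12)
      ≤ s ^ 2 * (δ * x) + 8 * x * H + 12 * s ^ 2 := by
    have h1 : ∀ p ∈ S, ∑ q ∈ S.erase p, (δ * x + 4 * x * (1 / ((max p q : ℕ) : ℝ) ^ 2) + 12)
        ≤ s * (δ * x + 12) + 4 * x * ∑ q ∈ S.erase p, (1 : ℝ) / ((max p q : ℕ) : ℝ) ^ 2 := by
      intro p hp
      have h2 : ∑ q ∈ S.erase p, (δ * x + 4 * x * (1 / ((max p q : ℕ) : ℝ) ^ 2) + 12)
          = ((S.erase p).card : ℝ) * (δ * x + 12)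
            + 4 * x * ∑ q ∈ S.erase p, (1 : ℝ) / ((max p q : ℕ) : ℝ) ^ 2 := by
        rw [mul_sum, ← nsmul_eq_mul, ← sum_const, ← sum_add_distrib]
        apply sum_congr rfl
        intro q _
        ring
      rw [h2]
      have h3 : ((S.erase p).card : ℝ) ≤ s := by
        rw [hs]
        exact_mod_cast card_le_card (erase_subset _ _)
      have h4 : 0 ≤ δ * x + 12 := by positivity
      nlinarith
    calc _ ≤ ∑ p ∈ S, (s * (δ * x + 12)
          + 4 * x * ∑ q ∈ S.erase p, (1 : ℝ) / ((max p q : ℕ) : ℝ) ^ 2) := sum_le_sum h1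
      _ = s * (s * (δ * x + 12))
          + 4 * x * ∑ p ∈ S, ∑ q ∈ S.erase p, (1 : ℝ) / ((max p q : ℕ) : ℝ) ^ 2 := by
        rw [sum_add_distrib, sum_const, nsmul_eq_mul, mul_sum]
      _ ≤ s * (s * (δ * x + 12)) + 4 * x * (2 * H) := by
        have := sum_max_le S hS
        have hx4 : (0:ℝ) ≤ 4 * x := by positivity
        have := mul_le_mul_of_nonneg_left this hx4
        linarith
      _ = _ := by ring
  have hc2 : c ^ 2 ≤ x * (x * H + s + (s ^ 2 * (δ * x) + 8 * x * H + 12 * s ^ 2)) := by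
    refine (sq_sum_le x _).trans ?_
    have h1 := bilinear_var F g hF hg S hS x _ hbil
    have h2 : ∑ m ∈ range x, ‖∑ p ∈ S, g p * (if p * m < x then F (p * m) else 0)‖ ^ 2
        ≤ x * H + s + (s ^ 2 * (δ * x) + 8 * x * H + 12 * s ^ 2) := by linarith
    gcongr
  have hδs : s ^ 2 * δ = H := by
    rw [hδ]; field_simp
  have hmain : (H * Z) ^ 2 ≤ 60 * H * x ^ 2 := by
    have h1 : (H * Z) ^ 2 ≤ (a + b + c) ^ 2 := by
      apply pow_le_pow_left₀ (by positivity) hdec
    have h2 : (a + b + c) ^ 2 ≤ 3 * (a ^ 2 + b ^ 2 + c ^ 2) := by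
      nlinarith [sq_nonneg (a - b), sq_nonneg (b - c), sq_nonneg (a - c)]
    have h3 : b ^ 2 ≤ 8 * x ^ 2 + 32 * s ^ 2 := by
      calc b ^ 2 ≤ (2 * x + 4 * s) ^ 2 := pow_le_pow_left₀ hb0 hb2 2
        _ ≤ _ := by nlinarith [sq_nonneg (2 * (x : ℝ) - 4 * s)]
    have h4 : (x : ℝ) * (x * H + s + (s ^ 2 * (δ * x) + 8 * x * H + 12 * s ^ 2))
        = 10 * H * x ^ 2 + x * (s + 12 * s ^ 2) := by
      calc (x : ℝ) * (x * H + s + (s ^ 2 * (δ * x) + 8 * x * H + 12 * s ^ 2))
          = 9 * (x * x * H) + x * x * (s ^ 2 * δ) + x * (s + 12 * s ^ 2) := by ring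
        _ = _ := by rw [hδs]; ring
    rw [h4] at hc2
    have h5 : x * (4 * s ^ 2 + s + 12 * s ^ 2) + 32 * s ^ 2 ≤ (x : ℝ) ^ 2 := by
      have : 32 * s ^ 2 ≤ x * (32 * s ^ 2) := le_mul_of_one_le_left (by positivity) hxr
      calc _ ≤ x * (4 * s ^ 2 + s + 12 * s ^ 2) + x * (32 * s ^ 2) := by linarith
        _ = x * ((4 * s ^ 2 + s + 12 * s ^ 2) + 32 * s ^ 2) := by ring
        _ ≤ x * x := by gcongr
        _ = _ := by ring
    have h6 : (x : ℝ) ^ 2 ≤ H * x ^ 2 := le_mul_of_one_le_left (by positivity) hH1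
    nlinarith
  have hZx : Z < ε * x := by
    have h1 : Z ^ 2 * H ≤ 60 * x ^ 2 := by
      have h2 : H * (Z ^ 2 * H) ≤ H * (60 * x ^ 2) := by
        calc H * (Z ^ 2 * H) = (H * Z) ^ 2 := by ring
          _ ≤ 60 * H * x ^ 2 := hmain
          _ = _ := by ring
      exact le_of_mul_le_mul_left h2 (by linarith)
    have h3 : 61 ≤ H * ε ^ 2 := by
      rwa [div_le_iff₀ (by positivity)] at hH2
    have hx2 : 0 < (x : ℝ) ^ 2 := by positivity
    have h4 : Z ^ 2 * 61 ≤ 60 * (ε ^ 2 * x ^ 2) := by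
      calc Z ^ 2 * 61 ≤ Z ^ 2 * (H * ε ^ 2) := by gcongr
        _ = (Z ^ 2 * H) * ε ^ 2 := by ring
        _ ≤ (60 * x ^ 2) * ε ^ 2 := by gcongr
        _ = _ := by ring
    have h5 : Z ^ 2 < (ε * x) ^ 2 := by
      have : 0 < ε ^ 2 * (x : ℝ) ^ 2 := by positivity
      nlinarith
    exact lt_of_pow_lt_pow_left₀ 2 (by positivity) h5
  exact hZx.le

end Pool.Agent.H4.El
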