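import Mathlib
import Pool.Agent.H68.OF.Main

/-!
List version of `main_win` (helper68): a self-uncorrelated `f₁` against a list of bounded
multiplicative functions.
-/

set_option autoImplicit false

open Filter Topology Finset

namespace Pool.Agent.H4.El

/-- product over a list of the values at shifted arguments -/
noncomputable def PL (L : List (ArithmeticFunction ℂ × ℤ)) (n : ℕ) : ℂ :=
  (L.map fun s => s.1 ((n : ℤ) + s.2).toNat).prod

lemma PL_cons (s : ArithmeticFunction ℂ × ℤ) (L : List (ArithmeticFunction ℂ × ℤ)) (n : ℕ) :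
    PL (s :: L) n = s.1 ((n : ℤ) + s.2).toNat * PL L n := by
  simp [PL]

lemma PL_append (L M : List (ArithmeticFunction ℂ × ℤ)) (n : ℕ) :
    PL (L ++ M) n = PL L n * PL M n := by
  simp [PL]

lemma norm_PL (L : List (ArithmeticFunction ℂ × ℤ)) (hL : ∀ s ∈ L, ∀ n, ‖s.1 n‖ ≤ 1) (n : ℕ) :
    ‖PL L n‖ ≤ 1 := by
  induction L with
  | nil => simp [PL]
  | cons s L ih =>
    rw [PL_cons, norm_mul]
    have h1 := hL s (by simp) ((n : ℤ) + s.2).toNat
    have h2 := ih fun t ht => hL t (by simp [ht])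
    calc _ ≤ (1 : ℝ) * 1 := mul_le_mul h1 h2 (norm_nonneg _) zero_le_one
      _ = 1 := one_mul 1

theorem winL (f₁ : ArithmeticFunction ℂ) (hmul : f₁.IsMultiplicative) (hbd : ∀ n, ‖f₁ n‖ ≤ 1)
    (hSU : Pool.Agent.H68.OF.SU f₁) (h₀ : ℤ) (L : List (ArithmeticFunction ℂ × ℤ))
    (hLm : ∀ s ∈ L, s.1.IsMultiplicative) (hLb : ∀ s ∈ L, ∀ n, ‖s.1 n‖ ≤ 1)
    (hLs : ∀ s ∈ L, s.2 ≠ h₀) (ε : ℝ) (hε : 0 < ε) :
    ∃ C : ℝ, ∀ X : ℕ, 1 ≤ X →
      ∑ Z ∈ Icc 1 X, ‖∑ n ∈ Icc 1 Z, f₁ ((n : ℤ) + h₀).toNat * PL L n‖ / (Z : ℝ) ^ 2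
        ≤ ε * Real.log X + C := by
  set k := L.length with hk
  set G : Fin (k + 1) → ArithmeticFunction ℂ := Fin.cons f₁ (fun i : Fin k => L[i].1) with hG
  set h : Fin (k + 1) → ℤ := Fin.cons h₀ (fun i : Fin k => L[i].2) with hh
  have hne : ∀ j, j ≠ 0 → h j ≠ h 0 := by
    intro j hj
    obtain ⟨i, rfl⟩ := Fin.exists_succ_eq.mpr hj
    simp only [hh, Fin.cons_succ, Fin.cons_zero]
    exact hLs _ (by simp)
  obtain ⟨C, X₀, hC, hX₀, hmain⟩ := Pool.Agent.H68.OF.main_win f₁ hbd hSU h hne ε hε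
  have hGm : ∀ i, (G i).IsMultiplicative := by
    intro i
    refine Fin.cases ?_ (fun i => ?_) i
    · simpa [hG] using hmul
    · simp only [hG, Fin.cons_succ]
      exact hLm _ (by simp)
  have hGb : ∀ i n, ‖G i n‖ ≤ 1 := by
    intro i
    refine Fin.cases ?_ (fun i => ?_) i
    · simpa [hG] using hbd
    · simp only [hG, Fin.cons_succ]
      exact hLb _ (by simp)
  have hprod : ∀ n : ℕ, ∏ i, G i ((n : ℤ) + h i).toNat = f₁ ((n : ℤ) + h₀).toNat * PL L n := by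
    intro n
    rw [Fin.prod_univ_succ]
    congr 1
    unfold PL
    rw [← Fin.prod_univ_fun_getElem]
    simp only [hG, hh, Fin.cons_succ]
    rfl
  have hcor : ∀ Z : ℕ, ‖Pool.Agent.H68.OF.cor G h Z‖ / Z =
      ‖∑ n ∈ Icc 1 Z, f₁ ((n : ℤ) + h₀).toNat * PL L n‖ / (Z : ℝ) ^ 2 := by
    intro Z
    unfold Pool.Agent.H68.OF.cor
    rw [sum_congr rfl fun n _ => hprod n, norm_mul, norm_div, norm_one, Complex.norm_natCast]
    rcases Nat.eq_zero_or_pos Z with rfl | hZ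
    · simp
    have : (0 : ℝ) < Z := by exact_mod_cast hZ
    field_simp
  have hbdd : ∀ Z : ℕ, ‖∑ n ∈ Icc 1 Z, f₁ ((n : ℤ) + h₀).toNat * PL L n‖ / (Z : ℝ) ^ 2 ≤ 1 := by
    intro Z
    rcases Nat.eq_zero_or_pos Z with rfl | hZ
    · simp
    have hZ0 : (0 : ℝ) < Z := by exact_mod_cast hZ
    have hZ1 : (1 : ℝ) ≤ Z := by exact_mod_cast hZ
    rw [div_le_one (by positivity)]
    have h1 : ‖∑ n ∈ Icc 1 Z, f₁ ((n : ℤ) + h₀).toNat * PL L n‖ ≤ Z := by
      refine (norm_sum_le _ _).trans ?_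
      calc _ ≤ ∑ n ∈ Icc 1 Z, (1 : ℝ) := by
            refine sum_le_sum fun n _ => ?_
            rw [norm_mul]
            calc _ ≤ (1 : ℝ) * 1 :=
                  mul_le_mul (hbd _) (norm_PL L hLb n) (norm_nonneg _) zero_le_one
              _ = 1 := one_mul 1
        _ = Z := by simp
    nlinarith
  refine ⟨C + X₀, fun X hX => ?_⟩
  have hX1 : (1 : ℝ) ≤ X := by exact_mod_cast hX
  have hlog : 0 ≤ Real.log X := Real.log_nonneg hX1
  have hX₀r : (1 : ℝ) ≤ X₀ := by exact_mod_cast hX₀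
  rcases le_or_gt X X₀ with h1 | h1
  · calc _ ≤ ∑ Z ∈ Icc 1 X, (1 : ℝ) := sum_le_sum fun Z _ => hbdd Z
      _ = X := by simp
      _ ≤ X₀ := by exact_mod_cast h1
      _ ≤ _ := by nlinarith [mul_nonneg hε.le hlog]
  · have hsplit : Icc 1 X = Icc 1 X₀ ∪ Ioc X₀ X := by
      ext z
      simp only [mem_Icc, mem_union, mem_Ioc]
      omega
    have hdisj : Disjoint (Icc 1 X₀) (Ioc X₀ X) := by
      rw [Finset.disjoint_left]
      intro z hz hz'
      rw [mem_Icc] at hz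
      rw [mem_Ioc] at hz'
      omega
    rw [hsplit, sum_union hdisj]
    have e1 : ∑ Z ∈ Icc 1 X₀, ‖∑ n ∈ Icc 1 Z, f₁ ((n : ℤ) + h₀).toNat * PL L n‖ / (Z : ℝ) ^ 2
        ≤ X₀ := by
      calc _ ≤ ∑ Z ∈ Icc 1 X₀, (1 : ℝ) := sum_le_sum fun Z _ => hbdd Z
        _ = X₀ := by simp
    have e2 := hmain G (by simp [hG]) hGm hGb X₀ X le_rfl h1.le
    rw [sum_congr rfl fun Z _ => hcor Z] at e2
    have e3 : Real.log ((X : ℝ) / X₀) ≤ Real.log X := by
      apply Real.log_le_log (by positivity)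
      exact div_le_self (by positivity) hX₀r
    have e4 := mul_le_mul_of_nonneg_left e3 hε.le
    linarith

end Pool.Agent.H4.El
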