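import Mathlib
import Pool.Agent.H4.El.WinL
import Pool.Agent.H4.El.Kat

/-!
Auxiliary multiplicative functions: `md q f` (divide the argument by `q` when possible), the
conjugate `cj f`, characters `chA χ`.
-/

set_option autoImplicit false

open Finset

namespace Pool.Agent.H4.El

/-- `f (n / q)` if `q ∣ n`, and `f n` otherwise -/
noncomputable def md (q : ℕ) (f : ArithmeticFunction ℂ) : ArithmeticFunction ℂ :=
  ⟨fun n => if q ∣ n then f (n / q) else f n, by simp⟩

/-- complex conjugate -/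
noncomputable def cj (f : ArithmeticFunction ℂ) : ArithmeticFunction ℂ :=
  ⟨fun n => (starRingEnd ℂ) (f n), by simp⟩

/-- a Dirichlet character as an arithmetic function -/
noncomputable def chA {Q : ℕ} (χ : DirichletCharacter ℂ Q) : ArithmeticFunction ℂ :=
  ⟨fun n => if n = 0 then 0 else χ (n : ZMod Q), by simp⟩

lemma md_apply (q : ℕ) (f : ArithmeticFunction ℂ) (n : ℕ) :
    md q f n = if q ∣ n then f (n / q) else f n := rfl

lemma cj_apply (f : ArithmeticFunction ℂ) (n : ℕ) : cj f n = (starRingEnd ℂ) (f n) := rfl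

lemma chA_apply {Q : ℕ} (χ : DirichletCharacter ℂ Q) (n : ℕ) :
    chA χ n = if n = 0 then 0 else χ (n : ZMod Q) := rfl

lemma md_mul_left {q : ℕ} (hq : 0 < q) (f : ArithmeticFunction ℂ) (n : ℕ) :
    md q f (q * n) = f n := by
  rw [md_apply, if_pos (dvd_mul_right q n), Nat.mul_div_cancel_left n hq]

lemma md_bdd (q : ℕ) (f : ArithmeticFunction ℂ) (hf : ∀ n, ‖f n‖ ≤ 1) (n : ℕ) :
    ‖md q f n‖ ≤ 1 := by
  rw [md_apply]
  split_ifs
  · exact hf _
  · exact hf _

lemma cj_bdd (f : ArithmeticFunction ℂ) (hf : ∀ n, ‖f n‖ ≤ 1) (n : ℕ) : ‖cj f n‖ ≤ 1 := by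
  rw [cj_apply, RCLike.norm_conj]
  exact hf n

lemma chA_bdd {Q : ℕ} (χ : DirichletCharacter ℂ Q) (n : ℕ) : ‖chA χ n‖ ≤ 1 := by
  rw [chA_apply]
  split_ifs
  · simp
  · exact χ.norm_le_one _

lemma md_mult {q : ℕ} (hq : q.Prime) {f : ArithmeticFunction ℂ} (hf : f.IsMultiplicative) :
    (md q f).IsMultiplicative := by
  constructor
  · rw [md_apply, if_neg]
    · exact hf.1
    · exact fun h => hq.one_lt.ne' (Nat.dvd_one.mp h)
  · intro m n hmn
    rw [md_apply, md_apply, md_apply]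
    by_cases hm : q ∣ m
    · have hn : ¬ q ∣ n := fun hn => hq.one_lt.ne' (Nat.dvd_one.mp (hmn ▸ Nat.dvd_gcd hm hn))
      rw [if_pos hm, if_neg hn, if_pos (hm.mul_right n)]
      obtain ⟨k, rfl⟩ := hm
      rw [mul_assoc, Nat.mul_div_cancel_left _ hq.pos, Nat.mul_div_cancel_left _ hq.pos]
      exact hf.2 (Nat.Coprime.coprime_mul_left hmn)
    · by_cases hn : q ∣ n
      · rw [if_pos hn, if_neg hm, if_pos (hn.mul_left m)]
        obtain ⟨k, rfl⟩ := hn
        rw [show m * (q * k) = q * (m * k) by ring, Nat.mul_div_cancel_left _ hq.pos,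
          Nat.mul_div_cancel_left _ hq.pos]
        exact hf.2 (Nat.Coprime.coprime_mul_left_right hmn)
      · rw [if_neg hm, if_neg hn, if_neg]
        · exact hf.2 hmn
        · exact fun h => (hq.dvd_mul.mp h).elim hm hn

lemma cj_mult {f : ArithmeticFunction ℂ} (hf : f.IsMultiplicative) :
    (cj f).IsMultiplicative := by
  constructor
  · rw [cj_apply, hf.1, map_one]
  · intro m n hmn
    rw [cj_apply, cj_apply, cj_apply, hf.2 hmn, map_mul]

lemma chA_mult {Q : ℕ} (χ : DirichletCharacter ℂ Q) : (chA χ).IsMultiplicative := by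
  constructor
  · rw [chA_apply]
    simp
  · intro m n _
    rw [chA_apply, chA_apply, chA_apply]
    by_cases hm : m = 0
    · simp [hm]
    by_cases hn : n = 0
    · simp [hn]
    rw [if_neg hm, if_neg hn, if_neg (mul_ne_zero hm hn)]
    push_cast
    exact map_mul _ _ _

lemma toNat_mul (q : ℕ) (z : ℤ) : ((q : ℤ) * z).toNat = q * z.toNat := by
  rcases le_or_gt 0 z with hz | hz
  · obtain ⟨k, rfl⟩ := Int.eq_ofNat_of_zero_le hz
    have : (q : ℤ) * (k : ℤ) = ((q * k : ℕ) : ℤ) := by push_cast; rfl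
    rw [this, Int.toNat_natCast, Int.toNat_natCast]
  · have h1 : z.toNat = 0 := Int.toNat_of_nonpos hz.le
    have h2 : ((q : ℤ) * z).toNat = 0 :=
      Int.toNat_of_nonpos (mul_nonpos_of_nonneg_of_nonpos (by positivity) hz.le)
    rw [h1, h2, mul_zero]

/-- the multiples of `Q` are detected by the characters at `n + 1` -/
lemma sum_chA (Q : ℕ) [NeZero Q] (n : ℕ) :
    ∑ χ : DirichletCharacter ℂ Q, chA χ ((n : ℤ) + 1).toNat
      = if Q ∣ n then (Q.totient : ℂ) else 0 := by
  have h1 : ((n : ℤ) + 1).toNat = n + 1 := by omega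
  have h2 : ∀ χ : DirichletCharacter ℂ Q, chA χ (n + 1) = χ ((n + 1 : ℕ) : ZMod Q) := by
    intro χ
    rw [chA_apply, if_neg (Nat.succ_ne_zero n)]
  rw [h1, sum_congr rfl fun χ _ => h2 χ, DirichletCharacter.sum_characters_eq ℂ]
  have h3 : (((n + 1 : ℕ) : ZMod Q) = 1) ↔ Q ∣ n := by
    rw [← ZMod.natCast_eq_zero_iff]
    push_cast
    constructor
    · intro h
      simpa using h
    · intro h
      rw [h, zero_add]
  by_cases h : Q ∣ n
  · rw [if_pos h, if_pos (h3.mpr h)]
  · rw [if_neg h, if_neg (fun h' => h (h3.mp h'))]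

lemma PL_md {q : ℕ} (hq : 0 < q) (T : List (ArithmeticFunction ℂ × ℤ)) (m : ℕ) :
    PL (T.map fun s => (md q s.1, (q : ℤ) * s.2)) (q * m) = PL T m := by
  induction T with
  | nil => simp [PL]
  | cons s T ih =>
    rw [List.map_cons, PL_cons, PL_cons, ih]
    congr 1
    have h1 : ((q * m : ℕ) : ℤ) + (q : ℤ) * s.2 = (q : ℤ) * ((m : ℤ) + s.2) := by
      push_cast
      ring
    simp only [h1, toNat_mul, md_mul_left hq]

lemma PL_cj (T : List (ArithmeticFunction ℂ × ℤ)) (m : ℕ) :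
    PL (T.map fun s => (cj s.1, s.2)) m = (starRingEnd ℂ) (PL T m) := by
  induction T with
  | nil => simp [PL]
  | cons s T ih =>
    rw [List.map_cons, PL_cons, PL_cons, ih, map_mul]
    rfl

/-- the number of `m < N` with `q ∣ p m + a` is at most `N / q + 1` -/
lemma card_dvd_lin {p q : ℕ} (hp : p.Prime) (hq : q.Prime) (hpq : p ≠ q) (a : ℤ) (N : ℕ) :
    (((range N).filter fun m : ℕ => (q : ℤ) ∣ (p : ℤ) * m + a).card : ℝ) ≤ (N : ℝ) / q + 1 := by
  classical
  have hq0 : (0 : ℝ) < q := by exact_mod_cast hq.pos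
  rcases ((range N).filter fun m : ℕ => (q : ℤ) ∣ (p : ℤ) * m + a).eq_empty_or_nonempty with h | h
  · rw [h, card_empty]
    have : (0 : ℝ) ≤ (N : ℝ) / q := by positivity
    push_cast
    linarith
  · obtain ⟨m₀, hm₀⟩ := h
    rw [mem_filter] at hm₀
    have hsub : ((range N).filter fun m : ℕ => (q : ℤ) ∣ (p : ℤ) * m + a) ⊆
        (range N).filter fun m : ℕ => m % q = m₀ % q := by
      intro m hm
      rw [mem_filter] at hm ⊢
      refine ⟨hm.1, ?_⟩
      have h1 : (q : ℤ) ∣ (p : ℤ) * ((m : ℤ) - m₀) := by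
        have := dvd_sub hm.2 hm₀.2
        have h2 : (p : ℤ) * m + a - ((p : ℤ) * m₀ + a) = (p : ℤ) * ((m : ℤ) - m₀) := by ring
        rwa [h2] at this
      have h2 : IsCoprime (q : ℤ) (p : ℤ) := by
        rw [Nat.isCoprime_iff_coprime]
        exact (Nat.coprime_primes hq hp).mpr (Ne.symm hpq)
      have h3 : (q : ℤ) ∣ (m : ℤ) - m₀ := h2.dvd_of_dvd_mul_left h1
      have h4 : (m₀ : ℤ) ≡ m [ZMOD q] := (Int.modEq_iff_dvd).mpr h3
      have h5 : m₀ ≡ m [MOD q] := (Int.natCast_modEq_iff).mp h4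
      exact h5.symm
    have h6 := Pool.H2.Ell.card_residue q (m₀ % q) N hq.pos (Nat.mod_lt _ hq.pos)
    have h7 : (((range N).filter fun m : ℕ => m % q = m₀ % q).card : ℝ) ≤ (N : ℝ) / q + 1 := by
      have h8 := Pool.H2.Ell.sum_residue (fun _ => 1) q (m₀ % q) N hq.pos (Nat.mod_lt _ hq.pos)
      simp only [sum_const, nsmul_eq_mul, mul_one, card_range] at h8
      have h9 : ((range N).filter fun m : ℕ => m % q = m₀ % q).card
          = (N + (q - 1 - m₀ % q)) / q := by exact_mod_cast h8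
      rw [h9]
      have := (abs_le.mp h6).2
      linarith
    refine le_trans ?_ h7
    exact_mod_cast card_le_card hsub

end Pool.Agent.H4.El
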