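import Mathlib
import Pool.Agent.H4.El.Md
import Pool.Agent.H4.El.Log

/-!
The bilinear sums of Katai's criterion for `F n = f₁ (n + a) ∏ f_i (n + b_i)` are small outside a set
of scales of logarithmic density zero.
-/

set_option autoImplicit false

open Finset Pool.H2.Ell

namespace Pool.Agent.H4.El

/-- `f₁` at shift `a` times a list product -/
noncomputable def FT (f₁ : ArithmeticFunction ℂ) (a : ℤ) (T : List (ArithmeticFunction ℂ × ℤ))
    (n : ℕ) : ℂ :=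
  f₁ ((n : ℤ) + a).toNat * PL T n

lemma norm_FT (f₁ : ArithmeticFunction ℂ) (hbd : ∀ n, ‖f₁ n‖ ≤ 1) (a : ℤ)
    (T : List (ArithmeticFunction ℂ × ℤ)) (hTb : ∀ s ∈ T, ∀ n, ‖s.1 n‖ ≤ 1) (n : ℕ) :
    ‖FT f₁ a T n‖ ≤ 1 := by
  unfold FT
  rw [norm_mul]
  calc _ ≤ (1 : ℝ) * 1 := mul_le_mul (hbd _) (norm_PL T hTb n) (norm_nonneg _) zero_le_one
    _ = 1 := one_mul 1

lemma xp_mul (Q x : ℕ) (hQ : 0 < Q) : xp (Q * x) Q = x := by
  unfold xp
  rw [Nat.mul_add_div hQ]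
  have : (Q - 1) / Q = 0 := Nat.div_eq_of_lt (by omega)
  omega

/-- the auxiliary list -/
noncomputable def LL (f₁ : ArithmeticFunction ℂ) (a : ℤ) (T : List (ArithmeticFunction ℂ × ℤ))
    (p q : ℕ) : List (ArithmeticFunction ℂ × ℤ) :=
  (cj (md p f₁), (p : ℤ) * a) ::
    (T.map (fun s => (md q s.1, (q : ℤ) * s.2)) ++
      T.map (fun s => (cj (md p s.1), (p : ℤ) * s.2)))

lemma LL_mem {f₁ : ArithmeticFunction ℂ} {a : ℤ} {T : List (ArithmeticFunction ℂ × ℤ)}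
    {p q : ℕ} {s : ArithmeticFunction ℂ × ℤ} (h : s ∈ LL f₁ a T p q) :
    s = (cj (md p f₁), (p : ℤ) * a) ∨
    (∃ t ∈ T, s = (md q t.1, (q : ℤ) * t.2)) ∨ (∃ t ∈ T, s = (cj (md p t.1), (p : ℤ) * t.2)) := by
  unfold LL at h
  rw [List.mem_cons, List.mem_append, List.mem_map, List.mem_map] at h
  rcases h with h | ⟨t, ht, h⟩ | ⟨t, ht, h⟩
  · exact Or.inl h
  · exact Or.inr (Or.inl ⟨t, ht, h.symm⟩)
  · exact Or.inr (Or.inr ⟨t, ht, h.symm⟩)

lemma PL_LL (f₁ : ArithmeticFunction ℂ) (a : ℤ) (T : List (ArithmeticFunction ℂ × ℤ))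
    {p q : ℕ} (hp : 0 < p) (hq : 0 < q) (m : ℕ) :
    PL (LL f₁ a T p q) (p * q * m)
      = (starRingEnd ℂ) (f₁ (((q * m : ℕ) : ℤ) + a).toNat) * (PL T (p * m) *
        (starRingEnd ℂ) (PL T (q * m))) := by
  unfold LL
  rw [PL_cons, PL_append]
  have h1 : (((p * q * m : ℕ) : ℤ) + (p : ℤ) * a) = (p : ℤ) * (((q * m : ℕ) : ℤ) + a) := by
    push_cast
    ring
  have h2 : PL (T.map fun s => (md q s.1, (q : ℤ) * s.2)) (p * q * m) = PL T (p * m) := by
    rw [show p * q * m = q * (p * m) by ring]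
    exact PL_md hq T (p * m)
  have h3 : PL (T.map fun s => (cj (md p s.1), (p : ℤ) * s.2)) (p * q * m)
      = (starRingEnd ℂ) (PL T (q * m)) := by
    have h4 : (T.map fun s => (cj (md p s.1), (p : ℤ) * s.2))
        = (T.map fun s => (md p s.1, (p : ℤ) * s.2)).map fun s => (cj s.1, s.2) := by
      rw [List.map_map]
      rfl
    rw [h4, PL_cj, show p * q * m = p * (q * m) by ring, PL_md hp T (q * m)]
  rw [h2, h3]
  congr 1
  simp only [h1, toNat_mul, cj_apply, md_mul_left hp]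

theorem pairZ (f₁ : ArithmeticFunction ℂ) (hmul : f₁.IsMultiplicative) (hbd : ∀ n, ‖f₁ n‖ ≤ 1)
    (hSU : Pool.Agent.H68.OF.SU f₁) (a : ℤ) (ha : a ≠ 0) (T : List (ArithmeticFunction ℂ × ℤ))
    (hTm : ∀ s ∈ T, s.1.IsMultiplicative) (hTb : ∀ s ∈ T, ∀ n, ‖s.1 n‖ ≤ 1)
    (hTs : ∀ s ∈ T, s.2 ≠ a) {p q : ℕ} (hp : p.Prime) (hq : q.Prime) (hpq : p < q)
    (hpa : ¬ (p : ℤ) ∣ a) (hfq : 1 / 2 ≤ ‖f₁ q‖) (δ : ℝ) (hδ : 0 < δ) :
    ∃ B : Set ℕ, LZ B ∧ ∀ x : ℕ, 1 ≤ x → x ∉ B →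
      ‖∑ m ∈ range (xp x q), FT f₁ a T (p * m) * (starRingEnd ℂ) (FT f₁ a T (q * m))‖
        ≤ δ * x + 4 * x / q ^ 2 + 12 := by
  classical
  have hQ : 0 < p * q := Nat.mul_pos hp.pos hq.pos
  have : NeZero (p * q) := ⟨hQ.ne'⟩
  have hpq' : p ≠ q := hpq.ne
  set c : ℕ := p * (q + 1) with hc
  have hc1 : 1 ≤ c := Nat.mul_pos hp.pos (Nat.succ_pos q)
  set L' := LL f₁ a T p q with hL'
  set L : DirichletCharacter ℂ (p * q) → List (ArithmeticFunction ℂ × ℤ) :=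
    fun χ => (chA χ, 1) :: L' with hL
  have hL'm : ∀ s ∈ L', s.1.IsMultiplicative := by
    intro s hs
    rcases LL_mem hs with rfl | ⟨t, ht, rfl⟩ | ⟨t, ht, rfl⟩
    · exact cj_mult (md_mult hp hmul)
    · exact md_mult hq (hTm t ht)
    · exact cj_mult (md_mult hp (hTm t ht))
  have hL'b : ∀ s ∈ L', ∀ n, ‖s.1 n‖ ≤ 1 := by
    intro s hs
    rcases LL_mem hs with rfl | ⟨t, ht, rfl⟩ | ⟨t, ht, rfl⟩
    · exact cj_bdd _ (md_bdd p f₁ hbd)
    · exact md_bdd q _ (hTb t ht)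
    · exact cj_bdd _ (md_bdd p _ (hTb t ht))
  have hpqZ : ¬ (p : ℤ) ∣ (q : ℤ) := by
    rw [Int.natCast_dvd_natCast]
    exact fun h => hpq' ((Nat.prime_dvd_prime_iff_eq hp hq).mp h)
  have hpqa : ¬ (p : ℤ) ∣ (q : ℤ) * a := fun h =>
    ((Nat.prime_iff_prime_int.mp hp).dvd_or_dvd h).elim hpqZ hpa
  have hL's : ∀ s ∈ L', s.2 ≠ (q : ℤ) * a := by
    intro s hs
    rcases LL_mem hs with rfl | ⟨t, ht, rfl⟩ | ⟨t, ht, rfl⟩
    · intro h
      exact hpqa ⟨a, h.symm⟩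
    · intro h
      have hq0 : (q : ℤ) ≠ 0 := by exact_mod_cast hq.ne_zero
      exact hTs t ht (mul_left_cancel₀ hq0 h)
    · intro h
      exact hpqa ⟨t.2, h.symm⟩
  have hLm : ∀ χ, ∀ s ∈ L χ, s.1.IsMultiplicative := by
    intro χ s hs
    simp only [hL, List.mem_cons] at hs
    rcases hs with rfl | hs
    · exact chA_mult χ
    · exact hL'm s hs
  have hLb : ∀ χ, ∀ s ∈ L χ, ∀ n, ‖s.1 n‖ ≤ 1 := by
    intro χ s hs
    simp only [hL, List.mem_cons] at hs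
    rcases hs with rfl | hs
    · exact chA_bdd χ
    · exact hL'b s hs
  have hLs : ∀ χ, ∀ s ∈ L χ, s.2 ≠ (q : ℤ) * a := by
    intro χ s hs
    simp only [hL, List.mem_cons] at hs
    rcases hs with rfl | hs
    · intro h
      have h1 : (q : ℤ) ∣ 1 := ⟨a, h⟩
      have h2 : q ∣ 1 := by exact_mod_cast h1
      exact hq.one_lt.ne' (Nat.dvd_one.mp h2)
    · exact hL's s hs
  -- bad sets
  set Φ : DirichletCharacter ℂ (p * q) → ℕ → ℂ :=
    fun χ n => f₁ ((n : ℤ) + (q : ℤ) * a).toNat * PL (L χ) n with hΦ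
  set Ψ : ℕ → ℂ := fun n => f₁ ((n : ℤ) + (q : ℤ) * a).toNat * PL L' n with hΨ
  have hΦb : ∀ χ n, ‖Φ χ n‖ ≤ 1 := fun χ n => norm_FT f₁ hbd ((q : ℤ) * a) (L χ) (hLb χ) n
  have hΦΨ : ∀ n, ∑ χ, Φ χ n = if p * q ∣ n then ((p * q).totient : ℂ) * Ψ n else 0 := by
    intro n
    have h1 : ∀ χ : DirichletCharacter ℂ (p * q), Φ χ n = chA χ ((n : ℤ) + 1).toNat * Ψ n := by
      intro χ
      simp only [hΦ, hΨ, hL, PL_cons]
      ring
    rw [sum_congr rfl fun χ _ => h1 χ, ← sum_mul, sum_chA]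
    split_ifs
    · rfl
    · rw [zero_mul]
  have hLZ : ∀ χ : DirichletCharacter ℂ (p * q),
      LZ {x | ∃ Y, Y ≤ c * x ∧ δ / 2 * x < ‖∑ n ∈ Icc 1 Y, Φ χ n‖} := fun χ =>
    LZ_max (Φ χ) (hΦb χ)
      (fun ε hε => winL f₁ hmul hbd hSU ((q : ℤ) * a) (L χ) (hLm χ) (hLb χ) (hLs χ) ε hε)
      (δ / 2) (by positivity) c hc1
  refine ⟨⋃ χ ∈ (univ : Finset (DirichletCharacter ℂ (p * q))),
    {x | ∃ Y, Y ≤ c * x ∧ δ / 2 * x < ‖∑ n ∈ Icc 1 Y, Φ χ n‖},
    LZ.biUnion _ _ fun χ _ => hLZ χ, fun x hx hxB => ?_⟩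
  have hgood : ∀ χ : DirichletCharacter ℂ (p * q), ∀ Y, Y ≤ c * x →
      ‖∑ n ∈ Icc 1 Y, Φ χ n‖ ≤ δ / 2 * x := by
    intro χ Y hY
    by_contra hcon
    push Not at hcon
    apply hxB
    rw [Set.mem_iUnion₂]
    exact ⟨χ, mem_univ _, Y, hY, hcon⟩
  set x' := xp x q with hx'
  have hx'1 : 1 ≤ x' := by
    have : 0 < xp x q := (lt_xp_iff x q 0 hq.pos).mpr (by omega)
    omega
  have hx'2 : q * x' < x + q := by
    have h1 : q * (x' - 1) < x := (lt_xp_iff x q (x' - 1) hq.pos).mp (by omega)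
    have h2 : q * x' = q * (x' - 1) + q := by
      conv_lhs => rw [show x' = (x' - 1) + 1 by omega]
      ring
    omega
  have hY : p * q * x' - 1 ≤ c * x := by
    have h1 : p * q * x' ≤ p * (x + q) := by
      rw [mul_assoc]
      exact Nat.mul_le_mul_left p hx'2.le
    have h2 : p * (x + q) ≤ p * (q + 1) * x := by
      rw [mul_assoc]
      apply Nat.mul_le_mul_left
      nlinarith
    exact (Nat.sub_le _ _).trans (h1.trans h2)
  have hsplit : ∀ χ : DirichletCharacter ℂ (p * q),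
      ‖∑ n ∈ range (p * q * x'), Φ χ n‖ ≤ 1 + δ / 2 * x := by
    intro χ
    have h1 : range (p * q * x') = insert 0 (Icc 1 (p * q * x' - 1)) := by
      have : 0 < p * q * x' := Nat.mul_pos hQ hx'1
      ext n
      simp only [mem_range, mem_insert, mem_Icc]
      omega
    rw [h1, sum_insert (by simp)]
    exact (norm_add_le _ _).trans (add_le_add (hΦb χ 0) (hgood χ _ hY))
  have hS₁ : ‖∑ m ∈ range x', Ψ (p * q * m)‖ ≤ 1 + δ / 2 * x := by
    have h1 : ∑ m ∈ range x', Ψ (p * q * m)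
        = ∑ n ∈ range (p * q * x'), (if p * q ∣ n then Ψ n else 0) := by
      rw [sum_dvd Ψ (p * q) (p * q * x') hQ, xp_mul _ _ hQ]
    have h2 : ((p * q).totient : ℂ) * ∑ m ∈ range x', Ψ (p * q * m)
        = ∑ χ, ∑ n ∈ range (p * q * x'), Φ χ n := by
      rw [sum_comm, h1, mul_sum]
      apply sum_congr rfl
      intro n _
      rw [hΦΨ n]
      split_ifs
      · rfl
      · rw [mul_zero]
    have h3 : ‖∑ χ, ∑ n ∈ range (p * q * x'), Φ χ n‖ ≤
        ((p * q).totient : ℝ) * (1 + δ / 2 * x) := by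
      refine (norm_sum_le _ _).trans ?_
      refine (sum_le_sum fun χ _ => hsplit χ).trans ?_
      rw [sum_const, nsmul_eq_mul]
      have h4 : (univ : Finset (DirichletCharacter ℂ (p * q))).card = (p * q).totient := by
        rw [← DirichletCharacter.card_eq_totient_of_hasEnoughRootsOfUnity ℂ (p * q),
          Nat.card_eq_fintype_card]
        rfl
      rw [h4]
    have h5 : (0 : ℝ) < ((p * q).totient : ℝ) := by
      exact_mod_cast Nat.totient_pos.mpr hQ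
    rw [← h2, norm_mul, Complex.norm_natCast] at h3
    exact le_of_mul_le_mul_left h3 h5
  -- comparison
  have hdiff : ∀ m : ℕ, ‖f₁ q * (FT f₁ a T (p * m) * (starRingEnd ℂ) (FT f₁ a T (q * m)))
      - Ψ (p * q * m)‖ ≤ if (q : ℤ) ∣ (p : ℤ) * m + a then 2 else 0 := by
    intro m
    set z : ℕ := ((p : ℤ) * m + a).toNat with hz
    have h1 : Ψ (p * q * m) = f₁ (q * z) * ((starRingEnd ℂ) (f₁ (((q * m : ℕ) : ℤ) + a).toNat) *
        (PL T (p * m) * (starRingEnd ℂ) (PL T (q * m)))) := by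
      simp only [hΨ, hL']
      rw [PL_LL f₁ a T hp.pos hq.pos m]
      have h2 : (((p * q * m : ℕ) : ℤ) + (q : ℤ) * a) = (q : ℤ) * ((p : ℤ) * m + a) := by
        push_cast
        ring
      rw [h2, toNat_mul, hz]
    have h2 : f₁ q * (FT f₁ a T (p * m) * (starRingEnd ℂ) (FT f₁ a T (q * m)))
        = (f₁ q * f₁ z) * ((starRingEnd ℂ) (f₁ (((q * m : ℕ) : ℤ) + a).toNat) *
        (PL T (p * m) * (starRingEnd ℂ) (PL T (q * m)))) := by
      unfold FT
      have h3 : (((p * m : ℕ) : ℤ) + a).toNat = z := by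
        rw [hz]
        push_cast
        rfl
      rw [h3, map_mul]
      ring
    rw [h1, h2, ← sub_mul, norm_mul]
    have h4 : ‖(starRingEnd ℂ) (f₁ (((q * m : ℕ) : ℤ) + a).toNat) *
        (PL T (p * m) * (starRingEnd ℂ) (PL T (q * m)))‖ ≤ 1 := by
      rw [norm_mul, norm_mul, RCLike.norm_conj, RCLike.norm_conj]
      have e1 := hbd (((q * m : ℕ) : ℤ) + a).toNat
      have e2 := norm_PL T hTb (p * m)
      have e3 := norm_PL T hTb (q * m)
      calc _ ≤ (1 : ℝ) * (1 * 1) := by gcongr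
        _ = 1 := by norm_num
    split_ifs with hd
    · have h5 : ‖f₁ q * f₁ z - f₁ (q * z)‖ ≤ 2 := by
        refine (norm_sub_le _ _).trans ?_
        rw [norm_mul]
        have e1 := hbd q
        have e2 := hbd z
        have e3 := hbd (q * z)
        have : ‖f₁ q‖ * ‖f₁ z‖ ≤ 1 * 1 := by gcongr
        linarith
      calc _ ≤ (2 : ℝ) * 1 := mul_le_mul h5 h4 (norm_nonneg _) (by norm_num)
        _ = 2 := by norm_num
    · have h5 : f₁ q * f₁ z - f₁ (q * z) = 0 := by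
        rcases le_or_gt ((p : ℤ) * m + a) 0 with h6 | h6
        · have h7 : z = 0 := Int.toNat_of_nonpos h6
          rw [h7]
          simp
        · have h7 : (z : ℤ) = (p : ℤ) * m + a := Int.toNat_of_nonneg h6.le
          have h8 : ¬ q ∣ z := by
            rw [← h7, Int.natCast_dvd_natCast] at hd
            exact hd
          rw [hmul.2 ((Nat.Prime.coprime_iff_not_dvd hq).mpr h8), sub_self]
      rw [h5, norm_zero, zero_mul]
  have hcard := card_dvd_lin hp hq hpq' a x'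
  have hq0 : (0 : ℝ) < q := by exact_mod_cast hq.pos
  have hq2 : (2 : ℝ) ≤ q := by exact_mod_cast hq.two_le
  have hx'r : (x' : ℝ) ≤ x / q + 1 := by
    have := (abs_le.mp (abs_xp x q hq.pos)).2
    linarith
  set S := ∑ m ∈ range x', FT f₁ a T (p * m) * (starRingEnd ℂ) (FT f₁ a T (q * m)) with hS
  have hfS : ‖f₁ q * S‖ ≤ (1 + δ / 2 * x) + 2 * ((x' : ℝ) / q + 1) := by
    have h1 : f₁ q * S = ∑ m ∈ range x', Ψ (p * q * m) + ∑ m ∈ range x',
        (f₁ q * (FT f₁ a T (p * m) * (starRingEnd ℂ) (FT f₁ a T (q * m))) - Ψ (p * q * m)) := by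
      rw [sum_sub_distrib, hS, mul_sum]
      ring
    rw [h1]
    refine (norm_add_le _ _).trans (add_le_add hS₁ ?_)
    refine (norm_sum_le _ _).trans ?_
    refine (sum_le_sum fun m _ => hdiff m).trans ?_
    rw [← sum_filter, sum_const, nsmul_eq_mul]
    linarith
  rw [norm_mul] at hfS
  have h1 : 1 / 2 * ‖S‖ ≤ ‖f₁ q‖ * ‖S‖ := mul_le_mul_of_nonneg_right hfq (norm_nonneg _)
  have h2 : (x' : ℝ) / q ≤ x / q ^ 2 + 1 / 2 := by
    calc (x' : ℝ) / q ≤ (x / q + 1) / q := by gcongr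
      _ = x / q ^ 2 + 1 / q := by field_simp
      _ ≤ x / q ^ 2 + 1 / 2 := by gcongr
  have h3 : 4 * (x : ℝ) / q ^ 2 = 4 * (x / q ^ 2) := by ring
  rw [h3]
  linarith

end Pool.Agent.H4.El
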