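import Mathlib
import Pool.Agent.H4.El.Kat

/-!
If `‖f p‖ < 1/2` on a set of primes with divergent reciprocals, then `f` has mean zero in absolute
value.
-/

set_option autoImplicit false

open Finset Pool.H2.Ell

namespace Pool.Agent.H4.El

lemma norm_le_pow {f : ℕ → ℂ} (hf : MB f) (R : Finset ℕ) :
    ∀ n : ℕ, (∀ p ∈ R, p.Prime ∧ ‖f p‖ ≤ 1 / 2 ∧ p ∣ n ∧ ¬ p ^ 2 ∣ n) →
      ‖f n‖ ≤ (1 / 2) ^ R.card := by
  classical
  induction R using Finset.induction_on with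
  | empty =>
    intro n _
    simpa using hf.bdd n
  | insert p R hpR ih =>
    intro n hn
    obtain ⟨hp, hfp, ⟨m, rfl⟩, hp2⟩ := hn p (mem_insert_self p R)
    have hpm : ¬ p ∣ m := by
      intro h
      apply hp2
      rw [pow_two]
      exact Nat.mul_dvd_mul_left p h
    have h1 := ih m (fun r hr => by
      obtain ⟨hr1, hr2, hr3, hr4⟩ := hn r (mem_insert_of_mem hr)
      have hrp : r ≠ p := fun h => hpR (h ▸ hr)
      have hcop : Nat.Coprime r p := (Nat.coprime_primes hr1 hp).mpr hrp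
      exact ⟨hr1, hr2, hcop.dvd_of_dvd_mul_left hr3, fun h => hr4 (h.mul_left p)⟩)
    rw [hf.mul p m ((Nat.Prime.coprime_iff_not_dvd hp).mpr hpm), norm_mul,
      card_insert_of_notMem hpR, pow_succ]
    calc ‖f p‖ * ‖f m‖ ≤ (1 / 2) * (1 / 2) ^ R.card := by gcongr
      _ = _ := by ring

lemma sum_sq_le (P₀ : ℕ) (hP : 1 ≤ P₀) (S : Finset ℕ) (hS : ∀ p ∈ S, P₀ < p) :
    ∑ p ∈ S, (1 : ℝ) / (p : ℝ) ^ 2 ≤ 1 / P₀ := by
  classical
  obtain ⟨N, hN⟩ : ∃ N, ∀ p ∈ S, p ≤ N := ⟨S.sup id, fun p hp => le_sup (f := id) hp⟩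
  have key : ∀ M : ℕ, P₀ ≤ M → ∑ n ∈ Ioc P₀ M, (1 : ℝ) / (n : ℝ) ^ 2 ≤ 1 / P₀ - 1 / M := by
    intro M hM
    induction M, hM using Nat.le_induction with
    | base => simp
    | succ n hn ih =>
      rw [sum_Ioc_succ_top hn]
      have hn0 : (0 : ℝ) < n := by exact_mod_cast (by omega : 0 < n)
      have h1 : (1 : ℝ) / ((n + 1 : ℕ) : ℝ) ^ 2 ≤ 1 / n - 1 / ((n + 1 : ℕ) : ℝ) := by
        push_cast
        rw [div_sub_div _ _ hn0.ne' (by positivity), div_le_div_iff₀ (by positivity) (by positivity)]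
        nlinarith
      linarith
  have h1 : S ⊆ Ioc P₀ (max P₀ N) := by
    intro p hp
    rw [mem_Ioc]
    exact ⟨hS p hp, (hN p hp).trans (le_max_right _ _)⟩
  have h2 := sum_le_sum_of_subset_of_nonneg (f := fun n : ℕ => (1 : ℝ) / (n : ℝ) ^ 2) h1
    fun _ _ _ => by positivity
  have h3 := key (max P₀ N) (le_max_left _ _)
  have h4 : (0 : ℝ) ≤ 1 / ((max P₀ N : ℕ) : ℝ) := by positivity
  linarith

theorem triv {f : ℕ → ℂ} (hf : MB f) (hW : Dv (fun p => ¬ (1 / 2 ≤ ‖f p‖))) {ε : ℝ}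
    (hε : 0 < ε) : ∃ x₀ : ℕ, ∀ x ≥ x₀, ∑ n ∈ range x, ‖f n‖ ≤ ε * x := by
  classical
  obtain ⟨k, hk⟩ := exists_pow_lt_of_lt_one (show (0 : ℝ) < ε / 4 by positivity)
    (show (1 / 2 : ℝ) < 1 by norm_num)
  obtain ⟨P₀, hP₀⟩ := exists_nat_ge (max 1 (4 / ε))
  have hP1 : 1 ≤ P₀ := by exact_mod_cast (le_max_left _ _).trans hP₀
  have hP2 : 4 / ε ≤ P₀ := (le_max_right _ _).trans hP₀
  obtain ⟨S, hS, hH⟩ := hW P₀ (max (2 * (k : ℝ)) (16 / ε) + 1)
  set H : ℝ := ∑ p ∈ S, (1 : ℝ) / p with hHdef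
  set s : ℝ := (S.card : ℝ) with hs
  have hs0 : 0 ≤ s := by positivity
  have hH1 : 2 * (k : ℝ) ≤ H := by
    have := le_max_left (2 * (k : ℝ)) (16 / ε)
    linarith
  have hH2 : 16 / ε ≤ H := by
    have := le_max_right (2 * (k : ℝ)) (16 / ε)
    linarith
  have hH0 : 0 < H := lt_of_lt_of_le (by positivity) hH2
  have hSne : S.Nonempty := by
    rw [nonempty_iff_ne_empty]
    intro h
    rw [hHdef, h, sum_empty] at hH0
    exact lt_irrefl _ hH0
  -- pointwise bound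
  have hpt : ∀ n : ℕ, ‖f n‖ ≤ (1 / 2) ^ k +
      (4 / H ^ 2) * (∑ p ∈ S, ((if p ∣ n then (1 : ℝ) else 0) - 1 / p)) ^ 2 +
      ∑ p ∈ S, (if p ^ 2 ∣ n then (1 : ℝ) else 0) := by
    intro n
    have e1 : (0 : ℝ) ≤ (1 / 2) ^ k := by positivity
    have e2 : 0 ≤ (4 / H ^ 2) * (∑ p ∈ S, ((if p ∣ n then (1 : ℝ) else 0) - 1 / p)) ^ 2 := by
      positivity
    have e3 : ∀ p ∈ S, (0 : ℝ) ≤ (if p ^ 2 ∣ n then (1 : ℝ) else 0) := fun p _ => by
      split_ifs <;> norm_num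
    have e4 := sum_nonneg e3
    have e5 := hf.bdd n
    by_cases h1 : ∃ p ∈ S, p ^ 2 ∣ n
    · obtain ⟨p, hp, hpn⟩ := h1
      have := single_le_sum e3 hp
      rw [if_pos hpn] at this
      linarith
    push Not at h1
    set R := S.filter (fun p => p ∣ n) with hR
    have hRsum : ∑ p ∈ S, ((if p ∣ n then (1 : ℝ) else 0) - 1 / p) = (R.card : ℝ) - H := by
      rw [sum_sub_distrib, hR, ← sum_filter, sum_const, nsmul_eq_mul, mul_one]
    rw [hRsum]
    rw [hRsum] at e2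
    by_cases h2 : R.card < k
    · have h3 : (R.card : ℝ) < k := by exact_mod_cast h2
      have h4 : H / 2 ≤ H - R.card := by linarith
      have h5 : (H / 2) ^ 2 ≤ ((R.card : ℝ) - H) ^ 2 := by
        have : ((R.card : ℝ) - H) ^ 2 = (H - R.card) ^ 2 := by ring
        rw [this]
        gcongr
      have h6 : (1 : ℝ) ≤ (4 / H ^ 2) * ((R.card : ℝ) - H) ^ 2 := by
        calc (1 : ℝ) = (4 / H ^ 2) * (H / 2) ^ 2 := by field_simp; norm_num
          _ ≤ _ := by gcongr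
      linarith
    · push Not at h2
      have h3 := norm_le_pow hf R n (fun p hp => by
        rw [hR, mem_filter] at hp
        obtain ⟨hp1, hp2, hp3⟩ := hS p hp.1
        push Not at hp3
        exact ⟨hp1, hp3.le, hp.2, h1 p hp.1⟩)
      have h4 : ((1 : ℝ) / 2) ^ R.card ≤ (1 / 2) ^ k :=
        pow_le_pow_of_le_one (by norm_num) (by norm_num) h2
      linarith
  obtain ⟨x₀, hx₀⟩ := exists_nat_ge ((16 * s ^ 2 / H ^ 2 + s) / (ε / 4))
  refine ⟨x₀, fun x hx => ?_⟩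
  have hxr : (x₀ : ℝ) ≤ x := by exact_mod_cast hx
  have hsumall := sum_le_sum fun n (_ : n ∈ range x) => hpt n
  rw [sum_add_distrib, sum_add_distrib, sum_const, card_range, nsmul_eq_mul, ← mul_sum] at hsumall
  have hTK := turan_kubilius S (fun p hp => (hS p hp).1) x
  have h3 : ∑ n ∈ range x, ∑ p ∈ S, (if p ^ 2 ∣ n then (1 : ℝ) else 0) ≤ x * (1 / P₀) + s := by
    rw [sum_comm]
    have h4 : ∀ p ∈ S, ∑ n ∈ range x, (if p ^ 2 ∣ n then (1 : ℝ) else 0)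
        ≤ x * (1 / (p : ℝ) ^ 2) + 1 := by
      intro p hp
      have hp0 : 0 < p ^ 2 := pow_pos (hS p hp).1.pos 2
      rw [sum_dvd_one (p ^ 2) x hp0]
      have := (abs_le.mp (abs_xp x (p ^ 2) hp0)).2
      push_cast at this
      have h5 : (x : ℝ) / (p : ℝ) ^ 2 = x * (1 / (p : ℝ) ^ 2) := by ring
      linarith
    refine (sum_le_sum h4).trans ?_
    rw [sum_add_distrib, ← mul_sum, sum_const, nsmul_eq_mul, mul_one]
    have h6 := sum_sq_le P₀ hP1 S (fun p hp => (hS p hp).2.1)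
    have hx0 : (0 : ℝ) ≤ x := by positivity
    nlinarith [mul_le_mul_of_nonneg_left h6 hx0]
  have hx0 : (0 : ℝ) ≤ x := by positivity
  have e1 : (x : ℝ) * (1 / 2) ^ k ≤ x * (ε / 4) := mul_le_mul_of_nonneg_left hk.le hx0
  have e2 : (4 / H ^ 2) * (x * H + 4 * s ^ 2) ≤ x * (ε / 4) + 16 * s ^ 2 / H ^ 2 := by
    have h4 : (4 / H ^ 2) * (x * H + 4 * s ^ 2) = x * (4 / H) + 16 * s ^ 2 / H ^ 2 := by
      field_simp
      ring
    rw [h4]
    have h5 : 4 / H ≤ ε / 4 := by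
      rw [div_le_iff₀ hε] at hH2
      rw [div_le_div_iff₀ hH0 (by norm_num)]
      linarith
    have := mul_le_mul_of_nonneg_left h5 hx0
    linarith
  have e3 : (x : ℝ) * (1 / P₀) ≤ x * (ε / 4) := by
    apply mul_le_mul_of_nonneg_left _ hx0
    have hP0 : (0 : ℝ) < P₀ := by exact_mod_cast hP1
    rw [div_le_iff₀ hε] at hP2
    rw [div_le_div_iff₀ hP0 (by norm_num)]
    linarith
  have e4 : 16 * s ^ 2 / H ^ 2 + s ≤ x * (ε / 4) := by
    have := hx₀.trans hxr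
    rwa [div_le_iff₀ (by positivity)] at this
  have e5 := mul_le_mul_of_nonneg_left hTK (show (0 : ℝ) ≤ 4 / H ^ 2 by positivity)
  linarith

end Pool.Agent.H4.El
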