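import Mathlib
import Pool.Agent.H4.El.Pair
import Pool.Agent.H4.El.Triv

/-!
One arbitrary factor: a set of scales of logarithmic density one depending only on `f₁` and on a
countable family of multiplicative functions.
-/

set_option autoImplicit false

open Finset Filter Topology Pool.H2.Ell

namespace Pool.Agent.H4.El

lemma sum_shift_le (φ : ℕ → ℝ) (hφ : ∀ n, 0 ≤ φ n) (h0 : φ 0 = 0) (a : ℤ) (x : ℕ) :
    ∑ n ∈ range x, φ ((n : ℤ) + a).toNat ≤ ∑ m ∈ range (x + a.natAbs), φ m := by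
  classical
  have h1 : ∑ n ∈ range x, φ ((n : ℤ) + a).toNat
      = ∑ n ∈ (range x).filter (fun n : ℕ => 0 < (n : ℤ) + a), φ ((n : ℤ) + a).toNat := by
    rw [sum_filter]
    apply sum_congr rfl
    intro n _
    split_ifs with h
    · rfl
    · rw [Int.toNat_of_nonpos (not_lt.mp h), h0]
  have h2 : Set.InjOn (fun n : ℕ => ((n : ℤ) + a).toNat)
      ((range x).filter (fun n : ℕ => 0 < (n : ℤ) + a) : Set ℕ) := by
    intro n hn m hm h
    simp only [coe_filter, mem_range, Set.mem_setOf_eq] at hn hm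
    simp only at h
    omega
  rw [h1, ← sum_image (f := φ) (g := fun n : ℕ => ((n : ℤ) + a).toNat) h2]
  apply sum_le_sum_of_subset_of_nonneg
  · intro m hm
    rw [mem_image] at hm
    obtain ⟨n, hn, rfl⟩ := hm
    rw [mem_filter, mem_range] at hn
    rw [mem_range]
    omega
  · intro m _ _
    exact hφ m

theorem LZ1 (f₁ : ArithmeticFunction ℂ) (hmul : f₁.IsMultiplicative) (hbd : ∀ n, ‖f₁ n‖ ≤ 1)
    (hSU : Pool.Agent.H68.OF.SU f₁) (a : ℤ) (ha : a ≠ 0) (T : List (ArithmeticFunction ℂ × ℤ))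
    (hTm : ∀ s ∈ T, s.1.IsMultiplicative) (hTb : ∀ s ∈ T, ∀ n, ‖s.1 n‖ ≤ 1)
    (hTs : ∀ s ∈ T, s.2 ≠ a) (ε : ℝ) (hε : 0 < ε) :
    LZ {x | ∃ g : ℕ → ℂ, MB g ∧ ε * x < ‖∑ n ∈ range x, g n * FT f₁ a T n‖} := by
  classical
  rcases dv_or (fun p => 1 / 2 ≤ ‖f₁ p‖) with hW | hW
  · obtain ⟨S, δ, x₀, hS, hδ, hK⟩ := katai_var hW hε a.natAbs
    have hB : ∀ r : ℕ × ℕ, ∃ B : Set ℕ, LZ B ∧ (r.1 ∈ S → r.2 ∈ S → r.1 < r.2 →
        ∀ x : ℕ, 1 ≤ x → x ∉ B →
        ‖∑ m ∈ range (xp x r.2), FT f₁ a T (r.1 * m) * (starRingEnd ℂ) (FT f₁ a T (r.2 * m))‖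
          ≤ δ * x + 4 * x / r.2 ^ 2 + 12) := by
      rintro ⟨p, q⟩
      by_cases h : p ∈ S ∧ q ∈ S ∧ p < q
      · obtain ⟨hp, hq, hpq⟩ := h
        have hpa : ¬ (p : ℤ) ∣ a := by
          intro h
          have h1 : p ∣ a.natAbs := Int.natCast_dvd.mp h
          have h2 := Nat.le_of_dvd (Int.natAbs_pos.mpr ha) h1
          have h3 := (hS p hp).2.1
          omega
        obtain ⟨B, hB, hB2⟩ := pairZ f₁ hmul hbd hSU a ha T hTm hTb hTs (hS p hp).1 (hS q hq).1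
          hpq hpa (hS q hq).2.2 δ hδ
        exact ⟨B, hB, fun _ _ _ => hB2⟩
      · exact ⟨{x | x < 0}, LZ.lt 0, fun h1 h2 h3 => absurd ⟨h1, h2, h3⟩ h⟩
    choose B hBZ hB2 using hB
    refine LZ.mono ?_ ((LZ.biUnion (S ×ˢ S) B fun r _ => hBZ r).union (LZ.lt (max x₀ 1)))
    rintro x ⟨g, hg, hx⟩
    by_contra hcon
    rw [Set.mem_union, not_or, Set.mem_iUnion₂] at hcon
    obtain ⟨hcon1, hcon2⟩ := hcon
    rw [Set.mem_setOf_eq, not_lt] at hcon2
    have hx0 : x₀ ≤ x := (le_max_left _ _).trans hcon2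
    have hx1 : 1 ≤ x := (le_max_right _ _).trans hcon2
    have := hK x hx0 (FT f₁ a T) g (norm_FT f₁ hbd a T hTb) hg (fun p hp q hq hpq => by
      refine hB2 (p, q) hp hq hpq x hx1 fun hxB => hcon1 ?_
      exact ⟨(p, q), mem_product.mpr ⟨hp, hq⟩, hxB⟩)
    linarith
  · have hf : MB (fun n => f₁ n) := ⟨hmul.1, fun m n h => hmul.2 h, hbd⟩
    obtain ⟨x₀, hx₀⟩ := triv hf hW (half_pos hε)
    refine LZ.mono ?_ (LZ.lt (max x₀ a.natAbs + 1))
    rintro x ⟨g, hg, hx⟩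
    rw [Set.mem_setOf_eq]
    by_contra hcon
    push Not at hcon
    have hx1 : x₀ ≤ x := by
      have := le_max_left x₀ a.natAbs
      omega
    have hx2 : a.natAbs ≤ x := by
      have := le_max_right x₀ a.natAbs
      omega
    have h1 : ‖∑ n ∈ range x, g n * FT f₁ a T n‖ ≤ ∑ n ∈ range x, ‖f₁ ((n : ℤ) + a).toNat‖ := by
      refine (norm_sum_le _ _).trans (sum_le_sum fun n _ => ?_)
      unfold FT
      rw [norm_mul, norm_mul]
      have e1 := hg.bdd n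
      have e2 := norm_PL T hTb n
      calc _ ≤ 1 * (‖f₁ ((n : ℤ) + a).toNat‖ * 1) := by gcongr
        _ = _ := by ring
    have h2 := sum_shift_le (fun n => ‖f₁ n‖) (fun n => norm_nonneg _) (by simp) a x
    have h3 := hx₀ (x + a.natAbs) (by omega)
    have h4 : ((x + a.natAbs : ℕ) : ℝ) ≤ 2 * x := by
      have : x + a.natAbs ≤ 2 * x := by omega
      exact_mod_cast this
    have h5 : ε / 2 * ((x + a.natAbs : ℕ) : ℝ) ≤ ε / 2 * (2 * x) :=
      mul_le_mul_of_nonneg_left h4 (half_pos hε).le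
    have h6 : ε / 2 * (2 * (x : ℝ)) = ε * x := by ring
    linarith

theorem LZ2 (f₁ : ArithmeticFunction ℂ) (hmul : f₁.IsMultiplicative) (hbd : ∀ n, ‖f₁ n‖ ≤ 1)
    (hSU : Pool.Agent.H68.OF.SU f₁) (T : List (ArithmeticFunction ℂ × ℕ)) (h₀ b : ℕ)
    (hTm : ∀ s ∈ T, s.1.IsMultiplicative) (hTb : ∀ s ∈ T, ∀ n, ‖s.1 n‖ ≤ 1)
    (hTs : ∀ s ∈ T, s.2 ≠ h₀) (hb : b ≠ h₀) (ε : ℝ) (hε : 0 < ε) :
    LZ {x | ∃ g : ℕ → ℂ, MB g ∧ ε * x < ‖∑ n ∈ Icc 1 x, g (n + b) *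
      (f₁ (n + h₀) * (T.map fun s => s.1 (n + s.2)).prod)‖} := by
  classical
  set a : ℤ := (h₀ : ℤ) - b with ha
  have ha0 : a ≠ 0 := by
    intro h
    apply hb
    omega
  set T' : List (ArithmeticFunction ℂ × ℤ) := T.map fun s => (s.1, (s.2 : ℤ) - b) with hT'
  have hmem : ∀ s ∈ T', ∃ t ∈ T, s = (t.1, (t.2 : ℤ) - b) := by
    intro s hs
    rw [hT', List.mem_map] at hs
    obtain ⟨t, ht, h⟩ := hs
    exact ⟨t, ht, h.symm⟩
  have hT'b : ∀ s ∈ T', ∀ n, ‖s.1 n‖ ≤ 1 := by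
    intro s hs
    obtain ⟨t, ht, rfl⟩ := hmem s hs
    exact hTb t ht
  have h1 := LZ1 f₁ hmul hbd hSU a ha0 T'
    (by
      intro s hs
      obtain ⟨t, ht, rfl⟩ := hmem s hs
      exact hTm t ht) hT'b
    (by
      intro s hs
      obtain ⟨t, ht, rfl⟩ := hmem s hs
      intro h
      apply hTs t ht
      simp only at h
      omega) (ε / 2) (half_pos hε)
  obtain ⟨x₀, hx₀⟩ := exists_nat_ge ((2 * (b + 1) : ℝ) / (ε / 2))
  refine LZ.mono ?_ (h1.union (LZ.lt x₀))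
  rintro x ⟨g, hg, hx⟩
  by_contra hcon
  rw [Set.mem_union, not_or, Set.mem_setOf_eq, Set.mem_setOf_eq, not_lt] at hcon
  obtain ⟨hcon1, hcon2⟩ := hcon
  have hcon3 : ‖∑ n ∈ range x, g n * FT f₁ a T' n‖ ≤ ε / 2 * x := by
    by_contra hc
    push Not at hc
    exact hcon1 ⟨g, hg, hc⟩
  set u : ℕ → ℂ := fun n => g n * FT f₁ a T' n with hu
  have hub : ∀ n, ‖u n‖ ≤ 1 := by
    intro n
    rw [hu]
    simp only
    rw [norm_mul]
    calc _ ≤ (1 : ℝ) * 1 :=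
          mul_le_mul (hg.bdd n) (norm_FT f₁ hbd a T' hT'b n) (norm_nonneg _) zero_le_one
      _ = 1 := one_mul 1
  have hval : ∀ n : ℕ, g (n + b) * (f₁ (n + h₀) * (T.map fun s => s.1 (n + s.2)).prod)
      = u (n + b) := by
    intro n
    rw [hu]
    simp only
    unfold FT PL
    have e1 : (((n + b : ℕ) : ℤ) + a).toNat = n + h₀ := by
      rw [ha]
      push_cast
      omega
    rw [e1, hT', List.map_map]
    congr 3
    apply List.map_congr_left
    intro s _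
    simp only [Function.comp]
    congr 1
    push_cast
    omega
  have hbnd : ∀ N : ℕ, ‖∑ n ∈ range N, u n‖ ≤ N := by
    intro N
    refine (norm_sum_le _ _).trans ?_
    calc _ ≤ ∑ n ∈ range N, (1 : ℝ) := sum_le_sum fun n _ => hub n
      _ = N := by simp
  have hsum : ∑ n ∈ Icc 1 x, g (n + b) * (f₁ (n + h₀) * (T.map fun s => s.1 (n + s.2)).prod)
      = ∑ n ∈ range x, u n + ∑ n ∈ range (b + 1), u (x + n) - ∑ n ∈ range (b + 1), u n := by
    rw [sum_congr rfl fun n _ => hval n]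
    have e1 : ∑ n ∈ range (b + 1 + x), u n = ∑ n ∈ range x, u n + ∑ n ∈ range (b + 1), u (x + n) := by
      rw [show b + 1 + x = x + (b + 1) by ring, sum_range_add]
    have e2 : ∑ n ∈ range (b + 1 + x), u n
        = ∑ n ∈ range (b + 1), u n + ∑ n ∈ range x, u (b + 1 + n) := sum_range_add _ _ _
    have e3 : ∑ n ∈ Icc 1 x, u (n + b) = ∑ n ∈ range x, u (b + 1 + n) := by
      have : Icc 1 x = Ico 1 (x + 1) := by
        ext n
        simp only [mem_Icc, mem_Ico]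
        omega
      rw [this, sum_Ico_eq_sum_range, Nat.add_sub_cancel]
      apply sum_congr rfl
      intro n _
      congr 1
      ring
    rw [e3, ← e1, e2]
    ring
  have h7 : ‖∑ n ∈ range (b + 1), u (x + n)‖ ≤ b + 1 := by
    refine (norm_sum_le _ _).trans ?_
    calc _ ≤ ∑ n ∈ range (b + 1), (1 : ℝ) := sum_le_sum fun n _ => hub _
      _ = b + 1 := by simp
  have h8 : ‖∑ n ∈ range (b + 1), u n‖ ≤ b + 1 := by
    have := hbnd (b + 1)
    push_cast at this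
    exact this
  rw [hsum] at hx
  have h9 := (norm_sub_le (∑ n ∈ range x, u n + ∑ n ∈ range (b + 1), u (x + n))
    (∑ n ∈ range (b + 1), u n)).trans (add_le_add_left (norm_add_le _ _) _)
  have h10 : (2 * (b + 1) : ℝ) ≤ ε / 2 * x := by
    have hxr : (x₀ : ℝ) ≤ x := by exact_mod_cast hcon2
    have := hx₀.trans hxr
    rw [div_le_iff₀ (half_pos hε)] at this
    linarith
  linarith

theorem mainX (f₁ : ArithmeticFunction ℂ) (hmul : f₁.IsMultiplicative) (hbd : ∀ n, ‖f₁ n‖ ≤ 1)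
    (hSU : Pool.Agent.H68.OF.SU f₁) (φ : ℕ → ArithmeticFunction ℂ)
    (hφm : ∀ i, (φ i).IsMultiplicative) (hφb : ∀ i n, ‖φ i n‖ ≤ 1) :
    ∃ B : Set ℕ, Tendsto (fun X : ℕ => lsum B X / Real.log X) atTop (𝓝 0) ∧
      ∀ (T : List (ℕ × ℕ)) (h₀ b : ℕ), (∀ s ∈ T, s.2 ≠ h₀) → b ≠ h₀ → ∀ ε : ℝ, 0 < ε →
        ∃ x₀ : ℕ, ∀ x, x₀ ≤ x → x ∉ B → ∀ g : ℕ → ℂ, MB g →
          ‖∑ n ∈ Icc 1 x, g (n + b) * (f₁ (n + h₀) * (T.map fun s => φ s.1 (n + s.2)).prod)‖
            ≤ ε * x := by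
  classical
  -- the countable family of bad sets
  set A' : List (ℕ × ℕ) × ℕ × ℕ × ℕ → Set ℕ := fun i =>
    if (∀ s ∈ i.1, s.2 ≠ i.2.1) ∧ i.2.2.1 ≠ i.2.1 then
      {x | ∃ g : ℕ → ℂ, MB g ∧ (1 / ((i.2.2.2 : ℝ) + 1)) * x < ‖∑ n ∈ Icc 1 x, g (n + i.2.2.1) *
        (f₁ (n + i.2.1) * (i.1.map fun s => φ s.1 (n + s.2)).prod)‖}
    else {x | x < 0} with hA'
  have hA'Z : ∀ i, LZ (A' i) := by
    rintro ⟨T, h₀, b, j⟩
    simp only [hA']
    split_ifs with h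
    · have h1 := LZ2 f₁ hmul hbd hSU (T.map fun s => (φ s.1, s.2)) h₀ b
        (by
          intro s hs
          rw [List.mem_map] at hs
          obtain ⟨t, _, rfl⟩ := hs
          exact hφm _)
        (by
          intro s hs
          rw [List.mem_map] at hs
          obtain ⟨t, _, rfl⟩ := hs
          exact hφb _)
        (by
          intro s hs
          rw [List.mem_map] at hs
          obtain ⟨t, ht, rfl⟩ := hs
          exact h.1 t ht) h.2 (1 / ((j : ℝ) + 1)) (by positivity)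
      simp only [List.map_map] at h1
      exact h1
    · exact LZ.lt 0
  obtain ⟨B, hB, hB2⟩ := LZ_diag
    (fun n => match (Encodable.decode n : Option (List (ℕ × ℕ) × ℕ × ℕ × ℕ)) with
      | some i => A' i
      | none => {x | x < 0})
    (by
      intro n
      rcases h : (Encodable.decode n : Option (List (ℕ × ℕ) × ℕ × ℕ × ℕ)) with _ | i
      · exact LZ.lt 0
      · exact hA'Z i)
  refine ⟨B, hB, fun T h₀ b hT hb ε hε => ?_⟩
  obtain ⟨j, hj⟩ := exists_nat_one_div_lt hε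
  obtain ⟨x₀, hx₀⟩ := hB2 (Encodable.encode (T, h₀, b, j))
  refine ⟨x₀, fun x hx hxB g hg => ?_⟩
  have h1 := hx₀ x hx hxB
  rw [Encodable.encodek] at h1
  simp only [hA'] at h1
  rw [if_pos ⟨hT, hb⟩] at h1
  by_contra hcon
  push Not at hcon
  apply h1
  refine ⟨g, hg, lt_of_le_of_lt ?_ hcon⟩
  have hx0 : (0 : ℝ) ≤ x := by positivity
  exact mul_le_mul_of_nonneg_right hj.le hx0

end Pool.Agent.H4.El
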