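import Mathlib
import Pool.Agent.H4.El.Main

/-!
Assembly: functions on the positive integers, tuples, logarithmic density.
-/

set_option autoImplicit false

open Finset Filter Topology Pool.H2.Ell

namespace Pool.Agent.H4.El

/-- multiplicative functions on the positive integers with values in the closed unit disc (the value
at `0` plays no role) -/
def IsMult (f : ℕ → ℂ) : Prop :=
  f 1 = 1 ∧ (∀ m n : ℕ, 0 < m → 0 < n → Nat.Coprime m n → f (m * n) = f m * f n) ∧
    ∀ n : ℕ, 0 < n → ‖f n‖ ≤ 1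

/-- the average over `1 ≤ n ≤ x` of `∏ F_i (n + h_i)` -/
noncomputable def avg {k : ℕ} (F : Fin (k + 1) → ℕ → ℂ) (h : Fin (k + 1) → ℕ) (x : ℕ) : ℂ :=
  (1 / (x : ℂ)) * ∑ n ∈ Icc 1 x, ∏ i, F i (n + h i)

open Classical in
/-- `X` has logarithmic density one -/
def LogDensityOne (X : Set ℕ) : Prop :=
  Tendsto (fun x : ℕ => (∑ n ∈ (Icc 1 x).filter (fun n => n ∈ X), (1 : ℝ) / n) / Real.log x)
    atTop (𝓝 1)

/-- extension by zero -/
noncomputable def toA (f : ℕ → ℂ) : ArithmeticFunction ℂ :=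
  ⟨fun n => if n = 0 then 0 else f n, by simp⟩

lemma toA_apply (f : ℕ → ℂ) (n : ℕ) : toA f n = if n = 0 then 0 else f n := rfl

lemma toA_pos (f : ℕ → ℂ) {n : ℕ} (hn : 0 < n) : toA f n = f n := by
  rw [toA_apply, if_neg hn.ne']

lemma toA_coe (f : ArithmeticFunction ℂ) : toA (fun n => f n) = f := by
  ext n
  rw [toA_apply]
  split_ifs with h
  · rw [h]; simp
  · rfl

lemma toA_mult {f : ℕ → ℂ} (hf : IsMult f) : (toA f).IsMultiplicative := by
  constructor
  · rw [toA_pos f one_pos]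
    exact hf.1
  · intro m n hmn
    rcases Nat.eq_zero_or_pos m with rfl | hm
    · simp
    rcases Nat.eq_zero_or_pos n with rfl | hn
    · simp
    rw [toA_pos f hm, toA_pos f hn, toA_pos f (Nat.mul_pos hm hn)]
    exact hf.2.1 m n hm hn hmn

lemma toA_bdd {f : ℕ → ℂ} (hf : IsMult f) (n : ℕ) : ‖toA f n‖ ≤ 1 := by
  rw [toA_apply]
  split_ifs with h
  · simp
  · exact hf.2.2 n (Nat.pos_of_ne_zero h)

lemma toA_MB {f : ℕ → ℂ} (hf : IsMult f) : MB (fun n => toA f n) :=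
  ⟨(toA_mult hf).1, fun m n h => (toA_mult hf).2 h, toA_bdd hf⟩

lemma isMult_one : IsMult (fun _ => 1) := ⟨rfl, fun _ _ _ _ _ => by simp, fun _ _ => by simp⟩

lemma isMult_coe {f : ArithmeticFunction ℂ} (hf : f.IsMultiplicative) (hb : ∀ n, ‖f n‖ ≤ 1) :
    IsMult (fun n => f n) := ⟨hf.1, fun _ _ _ _ h => hf.2 h, fun n _ => hb n⟩

lemma tendsto_harm :
    Tendsto (fun x : ℕ => (∑ n ∈ Icc 1 x, (1 : ℝ) / n) / Real.log x) atTop (𝓝 1) := by
  have h1 := Real.tendsto_harmonic_sub_log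
  have h2 : Tendsto (fun x : ℕ => Real.log x) atTop atTop :=
    Real.tendsto_log_atTop.comp tendsto_natCast_atTop_atTop
  have h3 : Tendsto (fun x : ℕ => ((harmonic x : ℝ) - Real.log x) / Real.log x + 1) atTop
      (𝓝 (0 + 1)) := (h1.div_atTop h2).add_const 1
  rw [zero_add] at h3
  refine h3.congr' ?_
  filter_upwards [h2.eventually_gt_atTop 0] with x hx
  have h4 : ∑ n ∈ Icc 1 x, (1 : ℝ) / n = (harmonic x : ℝ) := by
    rw [harmonic_eq_sum_Icc]
    push_cast
    apply sum_congr rfl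
    intro n _
    rw [one_div]
  rw [h4]
  field_simp
  ring

lemma logDensityOne_compl {B : Set ℕ}
    (hB : Tendsto (fun X : ℕ => lsum B X / Real.log X) atTop (𝓝 0)) : LogDensityOne Bᶜ := by
  classical
  unfold LogDensityOne
  have h1 := tendsto_harm.sub hB
  rw [sub_zero] at h1
  refine h1.congr fun x => ?_
  rw [← sub_div]
  congr 1
  unfold lsum
  rw [sum_filter, sum_filter, ← sum_sub_distrib]
  apply sum_congr rfl
  intro n _
  by_cases h : n ∈ B
  · have h' : ¬ n ∈ Bᶜ := fun h'' => h'' h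
    rw [if_pos h, if_neg h', sub_self]
  · have h' : n ∈ Bᶜ := h
    rw [if_neg h, if_pos h', sub_zero]

theorem fin (f₁ : ℕ → ℂ) (hf₁ : IsMult f₁) (hSU : Pool.Agent.H68.OF.SU (toA f₁))
    (𝓕 : Set (ℕ → ℂ)) (h𝓕 : 𝓕.Countable) (h𝓕m : ∀ f ∈ 𝓕, IsMult f) :
    ∃ X : Set ℕ, LogDensityOne X ∧
      (∀ (k : ℕ) (h : Fin (k + 1) → ℕ), Function.Injective h → ∀ (j : Fin (k + 1)), j ≠ 0 →
        ∀ F : Fin (k + 1) → ℕ → ℂ, F 0 = f₁ → (∀ i, i ≠ 0 → i ≠ j → F i ∈ 𝓕) →
        ∀ ε : ℝ, 0 < ε → ∃ x₀ : ℕ, ∀ x ∈ X, x₀ ≤ x → ∀ g : ℕ → ℂ, IsMult g →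
          ‖avg (Function.update F j g) h x‖ ≤ ε) ∧
      (∀ (k : ℕ) (h : Fin (k + 1) → ℕ), Function.Injective h →
        ∀ F : Fin (k + 1) → ℕ → ℂ, F 0 = f₁ → (∀ i, i ≠ 0 → F i ∈ 𝓕) →
        ∀ ε : ℝ, 0 < ε → ∃ x₀ : ℕ, ∀ x ∈ X, x₀ ≤ x → ‖avg F h x‖ ≤ ε) := by
  classical
  -- enumeration of the family
  obtain ⟨φ, hφ⟩ : ∃ φ : ℕ → (ℕ → ℂ), insert (fun _ => (1 : ℂ)) 𝓕 = Set.range φ :=
    (h𝓕.insert _).exists_eq_range ⟨_, Set.mem_insert _ _⟩
  have hφm : ∀ i, IsMult (φ i) := by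
    intro i
    have h1 : φ i ∈ insert (fun _ => (1 : ℂ)) 𝓕 := hφ ▸ Set.mem_range_self i
    rcases Set.mem_insert_iff.mp h1 with h2 | h2
    · rw [h2]
      exact isMult_one
    · exact h𝓕m _ h2
  have hφs : ∀ f ∈ 𝓕, ∃ i, φ i = f := by
    intro f hf
    have h1 : f ∈ Set.range φ := hφ ▸ Set.mem_insert_of_mem _ hf
    exact h1
  obtain ⟨B, hB, hB2⟩ := mainX (toA f₁) (toA_mult hf₁) (toA_bdd hf₁) hSU (fun i => toA (φ i))
    (fun i => toA_mult (hφm i)) (fun i => toA_bdd (hφm i))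
  refine ⟨Bᶜ, logDensityOne_compl hB, ?_, ?_⟩
  · intro k h hinj j hj F hF0 hF𝓕 ε hε
    set s : Finset (Fin (k + 1)) := (univ.erase j).erase 0 with hs
    have hidx : ∀ i : Fin (k + 1), ∃ l : ℕ, i ∈ s → φ l = F i := by
      intro i
      by_cases hi : i ∈ s
      · rw [hs, mem_erase, mem_erase] at hi
        obtain ⟨l, hl⟩ := hφs _ (hF𝓕 i hi.1 hi.2.1)
        exact ⟨l, fun _ => hl⟩
      · exact ⟨0, fun h => absurd h hi⟩
    choose idx hidx using hidx
    set T : List (ℕ × ℕ) := s.toList.map fun i => (idx i, h i) with hT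
    obtain ⟨x₀, hx₀⟩ := hB2 T (h 0) (h j)
      (by
        intro r hr
        rw [hT, List.mem_map] at hr
        obtain ⟨i, hi, rfl⟩ := hr
        rw [mem_toList, hs, mem_erase, mem_erase] at hi
        exact fun h' => hi.1 (hinj h'))
      (fun h' => hj (hinj h')) ε hε
    refine ⟨max x₀ 1, fun x hxX hx g hg => ?_⟩
    have hx1 : 1 ≤ x := (le_max_right _ _).trans hx
    have h1 := hx₀ x ((le_max_left _ _).trans hx) hxX (fun n => toA g n) (toA_MB hg)
    have h2 : ∑ n ∈ Icc 1 x, ∏ i, (Function.update F j g) i (n + h i)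
        = ∑ n ∈ Icc 1 x, (toA g) (n + h j) * ((toA f₁) (n + h 0) *
          (T.map fun r => (toA (φ r.1)) (n + r.2)).prod) := by
      apply sum_congr rfl
      intro n hn
      rw [mem_Icc] at hn
      rw [← mul_prod_erase univ _ (mem_univ j), ← mul_prod_erase (univ.erase j) _
        (mem_erase.mpr ⟨Ne.symm hj, mem_univ 0⟩), Function.update_self,
        Function.update_of_ne (Ne.symm hj), hF0, toA_pos g (by omega), toA_pos f₁ (by omega)]
      congr 2
      rw [hT, List.map_map]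
      have h3 : ((fun r : ℕ × ℕ => (toA (φ r.1)) (n + r.2)) ∘ fun i => (idx i, h i))
          = fun i => (toA (φ (idx i))) (n + h i) := rfl
      rw [h3, prod_map_toList]
      apply prod_congr rfl
      intro i hi
      have hi' := hi
      rw [mem_erase, mem_erase] at hi'
      rw [Function.update_of_ne hi'.2.1, toA_pos _ (by omega), hidx i hi]
    unfold avg
    rw [h2, norm_mul, norm_div, norm_one, Complex.norm_natCast]
    have hx0 : (0 : ℝ) < x := by exact_mod_cast hx1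
    calc 1 / (x : ℝ) * _ ≤ 1 / (x : ℝ) * (ε * x) :=
          mul_le_mul_of_nonneg_left h1 (by positivity)
      _ = ε := by field_simp
  · intro k h hinj F hF0 hF𝓕 ε hε
    set s : Finset (Fin (k + 1)) := univ.erase 0 with hs
    have hidx : ∀ i : Fin (k + 1), ∃ l : ℕ, i ∈ s → φ l = F i := by
      intro i
      by_cases hi : i ∈ s
      · rw [hs, mem_erase] at hi
        obtain ⟨l, hl⟩ := hφs _ (hF𝓕 i hi.1)
        exact ⟨l, fun _ => hl⟩
      · exact ⟨0, fun h => absurd h hi⟩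
    choose idx hidx using hidx
    set T : List (ℕ × ℕ) := s.toList.map fun i => (idx i, h i) with hT
    obtain ⟨x₀, hx₀⟩ := hB2 T (h 0) (h 0 + 1)
      (by
        intro r hr
        rw [hT, List.mem_map] at hr
        obtain ⟨i, hi, rfl⟩ := hr
        rw [mem_toList, hs, mem_erase] at hi
        exact fun h' => hi.1 (hinj h'))
      (by omega) ε hε
    refine ⟨max x₀ 1, fun x hxX hx => ?_⟩
    have hx1 : 1 ≤ x := (le_max_right _ _).trans hx
    have h1 := hx₀ x ((le_max_left _ _).trans hx) hxX (fun n => toA (fun _ => 1) n)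
      (toA_MB isMult_one)
    have h2 : ∑ n ∈ Icc 1 x, ∏ i, F i (n + h i)
        = ∑ n ∈ Icc 1 x, (toA (fun _ => 1)) (n + (h 0 + 1)) * ((toA f₁) (n + h 0) *
          (T.map fun r => (toA (φ r.1)) (n + r.2)).prod) := by
      apply sum_congr rfl
      intro n hn
      rw [mem_Icc] at hn
      rw [← mul_prod_erase univ _ (mem_univ 0), hF0, toA_pos f₁ (by omega),
        toA_pos (fun _ => 1) (by omega), one_mul]
      congr 1
      rw [hT, List.map_map]
      have h3 : ((fun r : ℕ × ℕ => (toA (φ r.1)) (n + r.2)) ∘ fun i => (idx i, h i))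
          = fun i => (toA (φ (idx i))) (n + h i) := rfl
      rw [h3, prod_map_toList]
      apply prod_congr rfl
      intro i hi
      rw [toA_pos _ (by omega), hidx i hi]
    unfold avg
    rw [h2, norm_mul, norm_div, norm_one, Complex.norm_natCast]
    have hx0 : (0 : ℝ) < x := by exact_mod_cast hx1
    calc 1 / (x : ℝ) * _ ≤ 1 / (x : ℝ) * (ε * x) :=
          mul_le_mul_of_nonneg_left h1 (by positivity)
      _ = ε := by field_simp

end Pool.Agent.H4.El
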